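import Pool.Agent.X64.Fast.Cover

/-!
# MP_c4df14_co, Q1: a maximal 1-plane graph of connectivity 5 with 3(n-2)/5 crossings

The graph has 27 vertices, 90 edges and is drawn with straight-line edges and 15 crossings. The 60
uncrossed edges form a plane graph with 20 triangular and 15 quadrangular faces, in which every
edge is on one triangle and one quadrangle; each quadrangle contains its two crossing diagonals.
-/

namespace Pool.Agent.Results.MP_c4df14_co.KappaFive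

open Pool.Agent.X64.Hex Pool.Agent.X64.NO1 Pool.Agent.X64.Fast Set

section Defs

variable {V : Type}

/-- The straight-line segment that represents the pair `a b`, if the vertex `v` is drawn at
`p v`. -/
def Seg (p : V → Plane) (a b : V) : Set Plane := segment ℝ (p a) (p b)

/-- The segments of the pairs `a b` and `c d` without a common vertex have a common point. -/
def Crosses (p : V → Plane) (a b c d : V) : Prop :=
  a ≠ c ∧ a ≠ d ∧ b ≠ c ∧ b ≠ d ∧ (Seg p a b ∩ Seg p c d).Nonempty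

/-- The straight-line drawing of `G` with the vertices at the points `p` is a 1-plane graph:
the vertices are distinct points, no edge contains a vertex other than its two ends, and each edge
is crossed by at most one other edge. -/
structure OnePlane (G : SimpleGraph V) (p : V → Plane) : Prop where
  inj : Function.Injective p
  avoid : ∀ a b c, G.Adj a b → p c ∈ Seg p a b → c = a ∨ c = b
  once : ∀ a b c d e f, G.Adj a b → G.Adj c d → G.Adj e f →
    Crosses p a b c d → Crosses p a b e f → s(c, d) = s(e, f)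

/-- The crossing points. -/
def crossingPoints (G : SimpleGraph V) (p : V → Plane) : Set Plane :=
  {x | ∃ a b c d, G.Adj a b ∧ G.Adj c d ∧ Crosses p a b c d ∧ x ∈ Seg p a b ∧ x ∈ Seg p c d}

/-- The curve `γ` meets the edge `a b` (outside the ends of `γ`). -/
def Meets (γ : ℝ → Plane) (p : V → Plane) (a b : V) : Prop := ∃ t ∈ Ioo (0 : ℝ) 1, γ t ∈ Seg p a b

/-- An arc from `u` to `v` can be added to the drawing so that the result is still a 1-plane graph: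
there is a Jordan arc from `p u` to `p v` that passes through no other vertex and meets at most one
edge, and an edge that is met is not crossed by another edge. -/
def CanAdd (G : SimpleGraph V) (p : V → Plane) (u v : V) : Prop :=
  ∃ γ : ℝ → Plane, ContinuousOn γ (Icc 0 1) ∧ InjOn γ (Icc 0 1) ∧ γ 0 = p u ∧ γ 1 = p v ∧
    (∀ t ∈ Ioo (0 : ℝ) 1, ∀ w, γ t ≠ p w) ∧
    (∀ a b c d, G.Adj a b → G.Adj c d → Meets γ p a b → Meets γ p c d → s(a, b) = s(c, d)) ∧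
    ∀ a b c d, G.Adj a b → G.Adj c d → Meets γ p a b → ¬ Crosses p a b c d

/-- The straight-line drawing `p` of `G` is a maximal 1-plane graph. -/
def MaximalOnePlane (G : SimpleGraph V) (p : V → Plane) : Prop :=
  OnePlane G p ∧ ∀ u v, u ≠ v → ¬ G.Adj u v → ¬ CanAdd G p u v

/-- The vertex connectivity of `G` is `k`: there are more than `k` vertices, deleting fewer than
`k` vertices leaves a connected graph, and deleting some `k` vertices does not. -/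
def ConnectivityEq [Fintype V] (G : SimpleGraph V) (k : ℕ) : Prop :=
  k < Fintype.card V ∧ (∀ S : Finset V, S.card < k → (G.induce {v | v ∉ S}).Connected) ∧
    ∃ S : Finset V, S.card = k ∧ ¬ (G.induce {v | v ∉ S}).Connected

end Defs

/-! ### The drawing -/

/-- The x-coordinates (5 binary digits each). -/
def XS : ℕ := 4350996915631100811975499946122656798347

/-- The y-coordinates (5 binary digits each). -/
def YS : ℕ := 30648736189700241005338328220507377477925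

/-- The x-coordinate of a vertex. -/
def X (v : Fin 27) : ℕ := Nat.mod (Nat.shiftRight XS (Nat.mul 5 v.1)) 32

/-- The y-coordinate of a vertex. -/
def Y (v : Fin 27) : ℕ := Nat.mod (Nat.shiftRight YS (Nat.mul 5 v.1)) 32

/-- The points of the drawing: (11, 5), (20, 9), (21, 10), (13, 7), (8, 6), (7, 5), (7, 2), (13, 10), (6, 9), (24, 11), (4, 0), (5, 11), (21, 12), (17, 13), (12, 14), (1, 24), (4, 8), (2, 19), (10, 18), (15, 15), (5, 14), (3, 16), (14, 15), (10, 17), (9, 17), (6, 16), (3, 22). -/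
def P (v : Fin 27) : IP := ((X v : ℤ), (Y v : ℤ))

/-- The adjacency matrix. -/
def AM : ℕ :=
  0xe8a0002992000690c000a898000231c00309840032148000896400323080310c2000328c00b1e0c00f50a200242c400482284062cb4000e2d88064a630000cb8000f63800018cc0006a880001e9000032e0004a2c000326800007e

/-- Adjacency. -/
def ab (a b : Fin 27) : Bool :=
  Nat.beq (Nat.mod (Nat.shiftRight AM (Nat.add (Nat.mul 27 a.1) b.1)) 2) 1

/-- The uncrossed edges, each with the cells on its left and its right side. -/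
def ND : List ((Fin 27 × Fin 27) × (ℕ × ℕ)) := [
  ((0, 1), (0, 9)), ((0, 3), (4, 3)), ((0, 4), (5, 4)), ((0, 6), (9, 8)), ((1, 2), (1, 16)),
  ((1, 6), (17, 9)), ((1, 9), (16, 20)), ((2, 3), (2, 15)), ((2, 7), (15, 27)),
  ((2, 9), (28, 16)), ((3, 4), (4, 10)), ((3, 7), (11, 15)), ((4, 5), (6, 14)),
  ((4, 8), (14, 13)), ((5, 6), (7, 21)), ((5, 8), (22, 14)), ((5, 10), (21, 25)),
  ((6, 10), (18, 21)), ((7, 8), (12, 26)), ((7, 11), (26, 35)), ((7, 12), (31, 30)),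
  ((7, 13), (32, 31)), ((8, 11), (23, 26)), ((9, 10), (79, 19)), ((9, 12), (29, 45)),
  ((9, 15), (41, 79)), ((9, 19), (45, 44)), ((10, 11), (36, 24)), ((10, 15), (79, 40)),
  ((10, 16), (37, 36)), ((11, 14), (46, 34)), ((11, 16), (36, 50)), ((11, 20), (47, 46)),
  ((12, 13), (31, 54)), ((12, 19), (51, 45)), ((13, 14), (33, 56)), ((13, 22), (56, 53)),
  ((14, 20), (46, 65)), ((14, 22), (57, 56)), ((14, 23), (61, 60)), ((14, 24), (62, 61)),
  ((15, 17), (67, 39)), ((15, 18), (42, 66)), ((15, 23), (66, 71)), ((15, 26), (68, 67)),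
  ((16, 17), (38, 78)), ((16, 21), (78, 49)), ((17, 21), (74, 78)), ((17, 26), (67, 73)),
  ((18, 19), (43, 55)), ((18, 22), (55, 58)), ((18, 23), (59, 66)), ((19, 22), (52, 55)),
  ((20, 21), (48, 77)), ((20, 25), (77, 64)), ((21, 25), (75, 77)), ((23, 24), (61, 70)),
  ((24, 25), (63, 72)), ((24, 26), (72, 69)), ((25, 26), (76, 72))]

/-- The uncrossed edges. -/
def HL : List (Fin 27 × Fin 27) := ND.map Prod.fst

/-- The pairs of crossing edges. -/
def CP : List ((Fin 27 × Fin 27) × (Fin 27 × Fin 27)) := [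
  ((0, 2), (1, 3)), ((0, 5), (4, 6)), ((1, 10), (6, 9)), ((2, 12), (7, 9)), ((3, 8), (4, 7)),
  ((5, 11), (8, 10)), ((7, 14), (11, 13)), ((9, 18), (15, 19)), ((10, 17), (15, 16)),
  ((11, 21), (16, 20)), ((12, 22), (13, 19)), ((14, 18), (22, 23)), ((14, 25), (20, 24)),
  ((15, 24), (23, 26)), ((17, 25), (21, 26))]

/-- The bounded cells of the drawing, with three directed lines each. -/
def RL : List (List (Fin 27 × Fin 27)) := [
  [(0, 1), (1, 3), (2, 0)], [(1, 2), (2, 0), (3, 1)], [(2, 3), (3, 1), (0, 2)],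
  [(3, 0), (0, 2), (1, 3)], [(0, 3), (3, 4), (4, 0)], [(0, 4), (4, 6), (5, 0)],
  [(4, 5), (5, 0), (6, 4)], [(5, 6), (6, 4), (0, 5)], [(6, 0), (0, 5), (4, 6)],
  [(0, 6), (6, 1), (1, 0)], [(4, 3), (3, 8), (7, 4)], [(3, 7), (7, 4), (8, 3)],
  [(7, 8), (8, 3), (4, 7)], [(8, 4), (4, 7), (3, 8)], [(4, 8), (8, 5), (5, 4)],
  [(3, 2), (2, 7), (7, 3)], [(2, 1), (1, 9), (9, 2)], [(1, 6), (6, 9), (10, 1)],
  [(6, 10), (10, 1), (9, 6)], [(10, 9), (9, 6), (1, 10)], [(9, 1), (1, 10), (6, 9)],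
  [(6, 5), (5, 10), (10, 6)], [(5, 8), (8, 10), (11, 5)], [(8, 11), (11, 5), (10, 8)],
  [(11, 10), (10, 8), (5, 11)], [(10, 5), (5, 11), (8, 10)], [(8, 7), (7, 11), (11, 8)],
  [(7, 2), (2, 12), (9, 7)], [(2, 9), (9, 7), (12, 2)], [(9, 12), (12, 2), (7, 9)],
  [(12, 7), (7, 9), (2, 12)], [(7, 12), (12, 13), (13, 7)], [(7, 13), (13, 11), (14, 7)],
  [(13, 14), (14, 7), (11, 13)], [(14, 11), (11, 13), (7, 14)], [(11, 7), (7, 14), (13, 11)],
  [(10, 11), (11, 16), (16, 10)], [(10, 16), (16, 15), (17, 10)], [(16, 17), (17, 10), (15, 16)],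
  [(17, 15), (15, 16), (10, 17)], [(15, 10), (10, 17), (16, 15)], [(9, 15), (15, 19), (18, 9)],
  [(15, 18), (18, 9), (19, 15)], [(18, 19), (19, 15), (9, 18)], [(19, 9), (9, 18), (15, 19)],
  [(9, 19), (19, 12), (12, 9)], [(11, 14), (14, 20), (20, 11)], [(11, 20), (20, 16), (21, 11)],
  [(20, 21), (21, 11), (16, 20)], [(21, 16), (16, 20), (11, 21)], [(16, 11), (11, 21), (20, 16)],
  [(12, 19), (19, 13), (22, 12)], [(19, 22), (22, 12), (13, 19)], [(22, 13), (13, 19), (12, 22)],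
  [(13, 12), (12, 22), (19, 13)], [(19, 18), (18, 22), (22, 19)], [(13, 22), (22, 14), (14, 13)],
  [(14, 22), (22, 23), (18, 14)], [(22, 18), (18, 14), (23, 22)], [(18, 23), (23, 22), (14, 18)],
  [(23, 14), (14, 18), (22, 23)], [(14, 23), (23, 24), (24, 14)], [(14, 24), (24, 20), (25, 14)],
  [(24, 25), (25, 14), (20, 24)], [(25, 20), (20, 24), (14, 25)], [(20, 14), (14, 25), (24, 20)],
  [(18, 15), (15, 23), (23, 18)], [(15, 17), (17, 26), (26, 15)], [(15, 26), (26, 23), (24, 15)],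
  [(26, 24), (24, 15), (23, 26)], [(24, 23), (23, 26), (15, 24)], [(23, 15), (15, 24), (26, 23)],
  [(24, 26), (26, 25), (25, 24)], [(26, 17), (17, 25), (21, 26)], [(17, 21), (21, 26), (25, 17)],
  [(21, 25), (25, 17), (26, 21)], [(25, 26), (26, 21), (17, 25)], [(21, 20), (20, 25), (25, 21)],
  [(17, 16), (16, 21), (21, 17)]]

/-- The boundary of the unbounded cell. -/
def OL : List (Fin 27 × Fin 27) := [(9, 15), (15, 10), (10, 9)]

def l (i : ℕ) (w : List (ℕ × ℕ)) : BP (Fin 27) := .leaf i w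

def n (a b : Fin 27) (x y : BP (Fin 27)) : BP (Fin 27) := .node a b x y

/-- The covering certificate. -/
def tree : BP (Fin 27) :=
  n 5 10 (n 2 7 (n 7 8 (n 4 5 (n 5 6 (n 1 2 (n 1 6 (n 6 9 (n 10 1 (l 17 [(0, 2), (1, 0), (0,
  2)]) (l 20 [(3, 0), (0, 1), (0, 1)])) (n 10 1 (l 18 [(1, 4), (0, 1), (0, 1)]) (l 19 [(0,
  11), (1, 0), (0, 4)]))) (n 0 1 (n 0 4 (n 4 6 (n 5 0 (l 5 [(0, 2), (1, 0), (0, 2)]) (l 8 [(3,
  0), (0, 1), (0, 1)])) (n 5 0 (l 6 [(1, 7), (0, 1), (0, 1)]) (l 7 [(0, 6), (1, 0), (0, 6)])))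
  (n 3 4 (n 0 3 (l 4 [(0, 1), (0, 1), (1, 2)]) (n 1 3 (n 2 0 (l 0 [(0, 5), (1, 0), (0, 2)]) (l
  3 [(1, 2), (0, 1), (0, 1)])) (n 2 0 (l 1 [(1, 3), (0, 1), (0, 1)]) (l 2 [(3, 2), (1, 0), (0,
  3)])))) (n 3 7 (n 3 8 (n 7 4 (l 10 [(0, 3), (1, 0), (0, 3)]) (l 13 [(9, 0), (0, 1), (0,
  1)])) (n 7 4 (l 11 [(1, 2), (0, 1), (0, 1)]) (l 12 [(0, 10), (1, 0), (0, 2)]))) (n 2 3 (n 1
  3 (n 2 0 (l 0 [(0, 6), (1, 0), (0, 3)]) (l 3 [(1, 3), (0, 1), (0, 1)])) (n 2 0 (l 1 [(1, 8),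
  (0, 1), (0, 1)]) (l 2 [(0, 2), (1, 0), (0, 2)]))) (l 15 [(0, 4), (0, 10), (1, 0)]))))) (n 0
  6 (l 9 [(0, 2), (0, 2), (1, 0)]) (n 4 6 (n 5 0 (l 5 [(2, 3), (1, 0), (0, 2)]) (l 8 [(1, 2),
  (0, 1), (0, 1)])) (n 5 0 (l 6 [(1, 7), (0, 1), (0, 1)]) (l 7 [(0, 6), (1, 0), (0, 3)]))))))
  (n 1 9 (l 16 [(1, 0), (0, 4), (5, 1)]) (n 6 9 (n 10 1 (l 17 [(2, 3), (1, 0), (0, 2)]) (l 20
  [(1, 2), (0, 1), (0, 1)])) (n 10 1 (l 18 [(1, 3), (0, 1), (0, 1)]) (l 19 [(0, 11), (1, 0),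
  (0, 3)]))))) (n 6 10 (n 6 9 (n 10 1 (l 17 [(3, 2), (1, 0), (0, 3)]) (l 20 [(3, 0), (0, 1),
  (0, 1)])) (n 10 1 (l 18 [(1, 2), (0, 1), (0, 1)]) (l 19 [(0, 10), (1, 0), (0, 2)]))) (l 21
  [(0, 1), (1, 5), (0, 1)]))) (n 4 8 (l 14 [(0, 2), (4, 1), (1, 0)]) (n 3 8 (n 7 4 (l 10 [(2,
  3), (1, 0), (0, 2)]) (l 13 [(1, 2), (0, 1), (0, 1)])) (n 7 4 (l 11 [(3, 0), (0, 1), (0, 1)])
  (l 12 [(0, 4), (1, 0), (0, 3)]))))) (l 26 [(0, 1), (0, 1), (2, 0)])) (n 2 9 (n 7 11 (l 26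
  [(2, 0), (0, 3), (3, 2)]) (n 9 19 (n 13 14 (n 7 13 (n 13 11 (n 14 7 (l 32 [(0, 2), (1, 0),
  (0, 2)]) (l 35 [(1, 5), (0, 1), (0, 1)])) (n 14 7 (l 33 [(1, 3), (0, 1), (0, 1)]) (l 34 [(0,
  8), (1, 0), (0, 3)]))) (n 9 12 (n 12 13 (n 7 12 (l 31 [(0, 1), (0, 1), (1, 3)]) (n 2 12 (n 9
  7 (l 27 [(0, 10), (1, 0), (0, 2)]) (l 30 [(1, 2), (0, 1), (0, 1)])) (n 9 7 (l 28 [(1, 9),
  (0, 1), (0, 1)]) (l 29 [(0, 4), (1, 0), (0, 3)])))) (n 19 13 (n 22 12 (l 51 [(2, 3), (1, 0),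
  (0, 2)]) (l 54 [(1, 2), (0, 1), (0, 1)])) (n 22 12 (l 52 [(1, 4), (0, 1), (0, 1)]) (l 53
  [(4, 2), (1, 0), (0, 3)])))) (n 12 19 (n 19 13 (n 22 12 (l 51 [(0, 2), (1, 0), (0, 2)]) (l
  54 [(3, 0), (0, 1), (0, 1)])) (n 22 12 (l 52 [(1, 4), (0, 1), (0, 1)]) (l 53 [(4, 3), (1,
  0), (0, 4)]))) (l 45 [(1, 4), (0, 1), (0, 1)])))) (n 12 19 (n 18 22 (n 13 22 (l 56 [(0, 1),
  (0, 1), (1, 3)]) (n 19 22 (n 19 13 (n 22 12 (l 51 [(0, 5), (1, 0), (0, 5)]) (l 54 [(1, 6),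
  (0, 1), (0, 1)])) (n 22 12 (l 52 [(1, 2), (0, 1), (0, 1)]) (l 53 [(0, 3), (1, 0), (0, 2)])))
  (l 55 [(0, 3), (2, 0), (0, 3)]))) (n 14 22 (n 22 23 (n 18 14 (l 57 [(0, 2), (1, 0), (0, 2)])
  (l 60 [(10, 2), (0, 1), (0, 1)])) (n 18 14 (l 58 [(1, 3), (0, 1), (0, 1)]) (l 59 [(10, 1),
  (1, 0), (0, 3)]))) (l 56 [(1, 0), (0, 3), (0, 3)]))) (l 45 [(1, 2), (0, 1), (0, 1)]))) (n 18
  19 (n 15 19 (n 18 9 (l 41 [(0, 8), (1, 0), (0, 3)]) (l 44 [(1, 3), (0, 1), (0, 1)])) (n 18 9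
  (l 42 [(7, 0), (0, 1), (0, 1)]) (l 43 [(0, 2), (1, 0), (0, 2)]))) (l 55 [(0, 5), (5, 1), (1,
  0)])))) (n 1 9 (l 16 [(1, 2), (0, 1), (0, 1)]) (n 6 9 (n 10 1 (l 17 [(2, 4), (1, 0), (0,
  2)]) (l 20 [(1, 2), (0, 1), (0, 1)])) (n 10 1 (l 18 [(1, 4), (0, 1), (0, 1)]) (l 19 [(0, 8),
  (1, 0), (0, 4)])))))) (n 15 23 (n 18 23 (n 18 19 (n 15 19 (n 18 9 (l 41 [(0, 6), (1, 0), (0,
  5)]) (l 44 [(1, 5), (0, 1), (0, 1)])) (n 18 9 (l 42 [(3, 0), (0, 1), (0, 1)]) (l 43 [(0, 2),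
  (1, 0), (0, 2)]))) (n 18 22 (l 55 [(1, 0), (0, 4), (0, 4)]) (n 22 23 (n 18 14 (l 57 [(5, 6),
  (1, 0), (0, 5)]) (l 60 [(1, 5), (0, 1), (0, 1)])) (n 18 14 (l 58 [(1, 2), (0, 1), (0, 1)])
  (l 59 [(0, 4), (1, 0), (0, 2)]))))) (n 15 18 (n 15 19 (n 18 9 (l 41 [(0, 6), (1, 0), (0,
  3)]) (l 44 [(1, 3), (0, 1), (0, 1)])) (n 18 9 (l 42 [(1, 2), (0, 1), (0, 1)]) (l 43 [(2, 3),
  (1, 0), (0, 2)]))) (l 66 [(0, 2), (0, 2), (1, 0)]))) (n 14 23 (n 14 20 (n 11 20 (n 10 11 (n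
  11 16 (n 10 16 (n 16 15 (n 17 10 (l 37 [(0, 2), (1, 0), (0, 2)]) (l 40 [(1, 11), (0, 1), (0,
  1)])) (n 17 10 (l 38 [(2, 3), (0, 1), (0, 1)]) (l 39 [(0, 3), (1, 0), (0, 3)]))) (l 36 [(0,
  2), (1, 0), (0, 2)])) (n 16 21 (n 16 17 (n 16 15 (n 17 10 (l 37 [(4, 1), (1, 0), (0, 4)]) (l
  40 [(1, 12), (0, 1), (0, 1)])) (n 17 10 (l 38 [(1, 2), (0, 1), (0, 1)]) (l 39 [(0, 7), (1,
  0), (0, 2)]))) (l 78 [(0, 1), (0, 1), (1, 5)])) (n 20 16 (n 21 11 (l 47 [(0, 5), (1, 0), (0,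
  3)]) (l 50 [(1, 3), (0, 1), (0, 1)])) (n 21 11 (l 48 [(1, 6), (0, 1), (0, 1)]) (l 49 [(0,
  2), (1, 0), (0, 2)]))))) (n 8 10 (n 11 5 (l 22 [(3, 1), (1, 0), (0, 3)]) (l 25 [(1, 7), (0,
  1), (0, 1)])) (n 11 5 (l 23 [(3, 2), (0, 1), (0, 1)]) (l 24 [(0, 2), (1, 0), (0, 2)])))) (n
  7 11 (n 5 8 (n 8 11 (n 8 10 (n 11 5 (l 22 [(0, 3), (1, 0), (0, 3)]) (l 25 [(1, 9), (0, 1),
  (0, 1)])) (n 11 5 (l 23 [(1, 2), (0, 1), (0, 1)]) (l 24 [(0, 5), (1, 0), (0, 2)]))) (l 26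
  [(0, 1), (1, 2), (0, 1)])) (n 4 8 (l 14 [(0, 1), (0, 1), (1, 7)]) (n 7 8 (n 3 8 (n 7 4 (l 10
  [(3, 10), (1, 0), (0, 3)]) (l 13 [(1, 3), (0, 1), (0, 1)])) (n 7 4 (l 11 [(10, 0), (0, 1),
  (0, 1)]) (l 12 [(0, 2), (1, 0), (0, 2)]))) (l 26 [(0, 3), (0, 3), (2, 0)])))) (n 11 14 (l 46
  [(0, 3), (0, 3), (2, 0)]) (n 13 11 (n 14 7 (l 32 [(0, 8), (1, 0), (0, 3)]) (l 35 [(1, 3),
  (0, 1), (0, 1)])) (n 14 7 (l 33 [(6, 0), (0, 1), (0, 1)]) (l 34 [(0, 2), (1, 0), (0,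
  2)])))))) (n 15 17 (n 17 21 (n 20 21 (n 20 16 (n 21 11 (l 47 [(5, 2), (1, 0), (0, 5)]) (l 50
  [(5, 0), (0, 1), (0, 1)])) (n 21 11 (l 48 [(1, 2), (0, 1), (0, 1)]) (l 49 [(0, 3), (1, 0),
  (0, 2)]))) (n 14 24 (n 17 26 (n 15 26 (n 26 23 (n 24 15 (l 68 [(0, 2), (1, 0), (0, 2)]) (l
  71 [(1, 10), (0, 1), (0, 1)])) (n 24 15 (l 69 [(2, 3), (0, 1), (0, 1)]) (l 70 [(0, 3), (1,
  0), (0, 3)]))) (l 67 [(0, 5), (1, 0), (0, 4)])) (n 24 26 (n 21 25 (n 24 25 (n 24 20 (n 25 14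
  (l 62 [(0, 6), (1, 0), (0, 3)]) (l 65 [(1, 3), (0, 1), (0, 1)])) (n 25 14 (l 63 [(1, 2), (0,
  1), (0, 1)]) (l 64 [(2, 3), (1, 0), (0, 2)]))) (n 25 26 (n 17 25 (n 21 26 (l 73 [(0, 6), (1,
  0), (0, 2)]) (l 76 [(1, 2), (0, 1), (0, 1)])) (n 21 26 (l 74 [(1, 9), (0, 1), (0, 1)]) (l 75
  [(0, 4), (1, 0), (0, 3)]))) (l 72 [(1, 3), (0, 1), (0, 1)]))) (n 20 25 (l 77 [(1, 5), (0,
  1), (0, 1)]) (n 24 20 (n 25 14 (l 62 [(0, 6), (1, 0), (0, 4)]) (l 65 [(1, 10), (0, 1), (0,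
  1)])) (n 25 14 (l 63 [(3, 0), (0, 1), (0, 1)]) (l 64 [(0, 2), (1, 0), (0, 2)]))))) (n 26 23
  (n 24 15 (l 68 [(3, 1), (1, 0), (0, 3)]) (l 71 [(1, 10), (0, 1), (0, 1)])) (n 24 15 (l 69
  [(1, 2), (0, 1), (0, 1)]) (l 70 [(0, 4), (1, 0), (0, 2)]))))) (n 23 24 (l 61 [(1, 6), (0,
  1), (0, 1)]) (n 26 23 (n 24 15 (l 68 [(0, 3), (1, 0), (0, 3)]) (l 71 [(1, 9), (0, 1), (0,
  1)])) (n 24 15 (l 69 [(3, 2), (0, 1), (0, 1)]) (l 70 [(0, 2), (1, 0), (0, 2)])))))) (n 16 21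
  (l 78 [(1, 2), (0, 1), (0, 1)]) (n 20 16 (n 21 11 (l 47 [(0, 3), (1, 0), (0, 3)]) (l 50 [(5,
  0), (0, 1), (0, 1)])) (n 21 11 (l 48 [(3, 2), (0, 1), (0, 1)]) (l 49 [(0, 2), (1, 0), (0,
  2)]))))) (n 16 17 (n 16 15 (n 17 10 (l 37 [(4, 1), (1, 0), (0, 4)]) (l 40 [(1, 9), (0, 1),
  (0, 1)])) (n 17 10 (l 38 [(1, 2), (0, 1), (0, 1)]) (l 39 [(0, 3), (1, 0), (0, 2)]))) (l 78
  [(0, 2), (2, 1), (1, 0)])))) (n 13 14 (n 13 11 (n 14 7 (l 32 [(0, 5), (1, 0), (0, 3)]) (l 35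
  [(3, 0), (0, 1), (0, 1)])) (n 14 7 (l 33 [(1, 2), (0, 1), (0, 1)]) (l 34 [(2, 3), (1, 0),
  (0, 2)]))) (n 14 22 (n 22 23 (n 18 14 (l 57 [(0, 2), (1, 0), (0, 2)]) (l 60 [(1, 4), (0, 1),
  (0, 1)])) (n 18 14 (l 58 [(5, 0), (0, 1), (0, 1)]) (l 59 [(5, 4), (1, 0), (0, 5)]))) (l 56
  [(3, 0), (0, 1), (0, 1)])))))

def ct0 : List ((Fin 27 × Fin 27) × List (List (Fin 27))) := [
  ((0, 1), [[6], [5, 10], [3], [2], []]), ((0, 2), [[6, 9], [4, 7], [3], [], [1]]),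
  ((0, 3), [[5, 8], [4], [], [2], [1]]), ((0, 4), [[6], [5], [], [3], [2, 7]]),
  ((0, 5), [[6], [], [4], [3, 8], [1, 10]]), ((0, 6), [[], [5], [4], [2, 9], [1]]),
  ((0, 7), [[5, 8], [4], [3], [2], [1, 9]]), ((0, 8), [[5], [4], [3], [2, 7], [1, 10]]),
  ((0, 9), [[6], [5, 10], [3, 7], [2], [1]]), ((0, 10), [[6], [5], [3, 8], [2, 9], [1]]),
  ((0, 11), [[5], [4, 7], [3, 8], [2, 12, 13], [1, 10]]),
  ((0, 12), [[6, 10, 15, 19], [5, 11, 13], [3, 7], [2], [1, 9]]),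
  ((0, 13), [[6, 10, 15, 18, 14], [5, 11], [3, 7], [2, 12], [1, 9, 19]]),
  ((0, 14), [[6, 10, 15, 23], [5, 11], [3, 7], [2, 12, 13], [1, 9, 18]]),
  ((0, 15), [[5, 10], [4, 8, 11, 16], [3, 7, 14, 18], [2, 12, 19], [1, 9]]),
  ((0, 16), [[6, 9, 15], [5, 11], [3, 7, 14, 20], [2, 12, 22, 23, 26, 17], [1, 10]]),
  ((0, 17), [[6, 9, 15], [5, 11, 16], [3, 7, 14, 25], [2, 12, 22, 23, 26], [1, 10]]),
  ((0, 18), [[5, 10, 15], [4, 8, 11, 13, 22], [3, 7, 14], [2, 12, 19], [1, 9]]),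
  ((0, 19), [[5, 10, 15], [4, 8, 11, 14, 18], [3, 7, 13], [2, 12], [1, 9]]),
  ((0, 20), [[6, 9, 15, 24], [5, 11], [3, 7, 14], [2, 12, 22, 23, 26, 21], [1, 10, 16]]),
  ((0, 21), [[6, 9, 15, 17], [5, 11], [3, 7, 14, 20], [2, 12, 22, 23, 26], [1, 10, 16]]),
  ((0, 22), [[6, 10, 15, 19], [5, 11, 14], [3, 7, 13], [2, 12], [1, 9, 18]]),
  ((0, 23), [[5, 10, 15], [4, 8, 11, 20, 24], [3, 7, 14], [2, 12, 22], [1, 9, 18]]),
  ((0, 24), [[6, 10, 17, 25], [5, 11, 20], [3, 7, 14], [2, 12, 22, 23], [1, 9, 15]]),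
  ((0, 25), [[6, 9, 15, 24], [5, 11, 20], [3, 7, 14], [2, 12, 22, 23, 26], [1, 10, 17]]),
  ((0, 26), [[5, 10, 17], [4, 8, 11, 21], [3, 7, 14, 24], [2, 12, 22, 23], [1, 9, 15]])]

def ct1 : List ((Fin 27 × Fin 27) × List (List (Fin 27))) := [
  ((1, 0), [[10, 5], [6], [3], [2], []]), ((1, 2), [[9], [6, 4, 7], [3], [], [0]]),
  ((1, 3), [[9, 7], [6, 4], [], [2], [0]]), ((1, 4), [[10, 5], [6], [3], [2, 7], [0]]),
  ((1, 5), [[10], [6], [3, 4], [2, 7, 8], [0]]), ((1, 6), [[10], [9], [], [3, 4], [0]]),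
  ((1, 7), [[10, 8], [9], [3], [2], [0, 4]]), ((1, 8), [[10], [6, 5], [3], [2, 7], [0, 4]]),
  ((1, 9), [[10], [], [6], [3, 7], [2]]), ((1, 10), [[], [9], [6], [3, 8], [0, 5]]),
  ((1, 11), [[10], [9, 12, 13], [3, 8], [2, 7], [0, 5]]),
  ((1, 12), [[10, 15, 19], [9], [3, 7], [2], [0, 5, 11, 13]]),
  ((1, 13), [[10, 15, 18, 14], [9, 19], [3, 7], [2, 12], [0, 5, 11]]),
  ((1, 14), [[10, 15, 23], [9, 18], [3, 7], [2, 12, 13], [0, 5, 11]]),
  ((1, 15), [[10], [9], [3, 7, 14, 18], [2, 12, 19], [0, 5, 11, 16]]),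
  ((1, 16), [[10], [9, 15], [3, 7, 14, 20], [2, 12, 22, 23, 26, 17], [0, 5, 11]]),
  ((1, 17), [[10], [9, 15], [3, 7, 14, 25], [2, 12, 22, 23, 26], [0, 5, 11, 16]]),
  ((1, 18), [[10, 15], [9], [3, 7, 14], [2, 12, 19], [0, 5, 11, 13, 22]]),
  ((1, 19), [[10, 15], [9], [3, 7, 13], [2, 12], [0, 5, 11, 14, 18]]),
  ((1, 20), [[10, 16], [9, 15, 24], [3, 7, 14], [2, 12, 22, 23, 26, 21], [0, 5, 11]]),
  ((1, 21), [[10, 17], [9, 15, 16], [3, 7, 14, 20], [2, 12, 22, 23, 26], [0, 5, 11]]),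
  ((1, 22), [[10, 15, 19], [9, 18], [3, 7, 13], [2, 12], [0, 5, 11, 14]]),
  ((1, 23), [[10, 15], [9, 18], [3, 7, 14], [2, 12, 22], [0, 5, 11, 20, 24]]),
  ((1, 24), [[10, 17, 25], [9, 15], [3, 7, 14], [2, 12, 22, 23], [0, 5, 11, 20]]),
  ((1, 25), [[10, 17], [9, 15, 24], [3, 7, 14], [2, 12, 22, 23, 26], [0, 5, 11, 20]]),
  ((1, 26), [[10, 17], [9, 15], [3, 7, 14, 24], [2, 12, 22, 23], [0, 5, 11, 21]])]

def ct2 : List ((Fin 27 × Fin 27) × List (List (Fin 27))) := [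
  ((2, 0), [[9, 6], [7, 4], [3], [1], []]), ((2, 1), [[9], [7, 4, 6], [3], [], [0]]),
  ((2, 3), [[9, 6, 4], [7], [], [1], [0]]), ((2, 4), [[9, 10, 5], [7], [3], [1, 6], [0]]),
  ((2, 5), [[9, 10], [7, 8], [3, 4], [1, 6], [0]]), ((2, 6), [[9], [7, 8, 5], [3, 4], [1], [0]]),
  ((2, 7), [[12], [9], [], [3], [0, 4]]), ((2, 8), [[9, 6, 5], [7], [3], [1, 10], [0, 4]]),
  ((2, 9), [[12], [], [7], [1], [0, 6]]), ((2, 10), [[9], [7, 11], [3, 8], [1], [0, 5]]),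
  ((2, 11), [[12, 13], [7], [3, 8], [1, 10], [0, 5]]),
  ((2, 12), [[], [9], [7], [1, 10, 15, 19], [0, 5, 11, 13]]),
  ((2, 13), [[12], [9, 19], [7], [1, 10, 15, 18, 14], [0, 5, 11]]),
  ((2, 14), [[12, 13], [9, 18], [7], [1, 10, 15, 23], [0, 5, 11]]),
  ((2, 15), [[12, 19], [9], [7, 14, 18], [1, 10], [0, 5, 11, 16]]),
  ((2, 16), [[12, 22, 23, 26, 17], [9, 15], [7, 13, 14, 20], [1, 10], [0, 5, 11]]),
  ((2, 17), [[12, 22, 23, 26], [9, 15], [7, 13, 14, 25], [1, 10], [0, 5, 11, 16]]),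
  ((2, 18), [[12, 19], [9], [7, 14], [1, 10, 15], [0, 5, 11, 13, 22]]),
  ((2, 19), [[12], [9], [7, 13], [1, 10, 15], [0, 5, 11, 14, 18]]),
  ((2, 20), [[12, 22, 23, 26, 21], [9, 15, 24], [7, 13, 14], [1, 10, 16], [0, 5, 11]]),
  ((2, 21), [[12, 22, 23, 26], [9, 15, 17], [7, 13, 14, 20], [1, 10, 16], [0, 5, 11]]),
  ((2, 22), [[12], [9, 18], [7, 13], [1, 10, 15, 19], [0, 5, 11, 14]]),
  ((2, 23), [[12, 22], [9, 18], [7, 14], [1, 10, 15], [0, 5, 11, 20, 24]]),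
  ((2, 24), [[12, 22, 23], [9, 15], [7, 14], [1, 10, 17, 25], [0, 5, 11, 20]]),
  ((2, 25), [[12, 22, 23, 26], [9, 15, 24], [7, 14], [1, 10, 17], [0, 5, 11, 20]]),
  ((2, 26), [[12, 22, 23], [9, 15], [7, 14, 24], [1, 10, 17], [0, 5, 11, 21]])]

def ct3 : List ((Fin 27 × Fin 27) × List (List (Fin 27))) := [
  ((3, 0), [[8, 5], [4], [2], [1], []]), ((3, 1), [[7, 9], [4, 6], [2], [], [0]]),
  ((3, 2), [[7], [4, 6, 9], [], [1], [0]]), ((3, 4), [[8], [7], [], [1, 6], [0]]),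
  ((3, 5), [[8], [7, 11], [4], [1, 6], [0]]), ((3, 6), [[8, 5], [4], [2, 9], [1], [0]]),
  ((3, 7), [[8], [], [4], [2], [1, 9]]), ((3, 8), [[], [7], [4], [1, 10], [0, 5]]),
  ((3, 9), [[8, 10], [7], [2], [1], [0, 6]]), ((3, 10), [[8], [4, 6], [2, 9], [1], [0, 5]]),
  ((3, 11), [[8], [7], [2, 12, 13], [1, 10], [0, 5]]),
  ((3, 12), [[8, 11, 13], [7], [2], [1, 9], [0, 5, 10, 15, 19]]),
  ((3, 13), [[8, 11], [7], [2, 12], [1, 9, 19], [0, 5, 10, 15, 18, 14]]),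
  ((3, 14), [[8, 11], [7], [2, 12, 13], [1, 9, 18], [0, 5, 10, 15, 23]]),
  ((3, 15), [[8, 10], [7, 14, 18], [2, 12, 19], [1, 9], [0, 5, 11, 16]]),
  ((3, 16), [[8, 11], [7, 14, 20], [2, 12, 22, 23, 26, 17], [1, 10], [0, 6, 9, 15]]),
  ((3, 17), [[8, 11, 16], [7, 14, 25], [2, 12, 22, 23, 26], [1, 10], [0, 6, 9, 15]]),
  ((3, 18), [[8, 10, 15], [7, 14], [2, 12, 19], [1, 9], [0, 5, 11, 13, 22]]),
  ((3, 19), [[8, 10, 15], [7, 13], [2, 12], [1, 9], [0, 5, 11, 14, 18]]),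
  ((3, 20), [[8, 11], [7, 14], [2, 12, 22, 23, 26, 21], [1, 10, 16], [0, 6, 9, 15, 24]]),
  ((3, 21), [[8, 11], [7, 14, 20], [2, 12, 22, 23, 26], [1, 10, 16], [0, 6, 9, 15, 17]]),
  ((3, 22), [[8, 11, 14], [7, 13], [2, 12], [1, 9, 18], [0, 5, 10, 15, 19]]),
  ((3, 23), [[8, 10, 15], [7, 14], [2, 12, 22], [1, 9, 18], [0, 5, 11, 20, 24]]),
  ((3, 24), [[8, 11, 20], [7, 14], [2, 12, 22, 23], [1, 9, 15], [0, 5, 10, 17, 25]]),
  ((3, 25), [[8, 11, 20], [7, 14], [2, 12, 22, 23, 26], [1, 10, 17], [0, 6, 9, 15, 24]]),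
  ((3, 26), [[8, 10, 17], [7, 14, 24], [2, 12, 22, 23], [1, 9, 15], [0, 5, 11, 21]])]

def ct4 : List ((Fin 27 × Fin 27) × List (List (Fin 27))) := [
  ((4, 0), [[7, 2], [6], [5], [3], []]), ((4, 1), [[7, 2], [6], [5, 10], [3], [0]]),
  ((4, 2), [[7], [6, 1], [5, 10, 9], [3], [0]]), ((4, 3), [[8], [7], [6, 1], [], [0]]),
  ((4, 5), [[8], [7, 11], [6], [], [0]]), ((4, 6), [[7, 9], [], [5], [3, 1], [0]]),
  ((4, 7), [[8], [], [5, 11], [3], [0, 2]]), ((4, 8), [[], [7], [6, 10], [5], [3]]),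
  ((4, 9), [[7], [6], [5, 10], [3, 2], [0, 1]]), ((4, 10), [[8], [7, 9], [6], [5], [0, 1]]),
  ((4, 11), [[8], [7], [6, 10], [5], [0, 2, 12, 13]]),
  ((4, 12), [[8, 10, 15, 19], [7], [6, 9], [5, 11, 13], [0, 2]]),
  ((4, 13), [[8, 10, 15, 18, 14], [7], [6, 9, 19], [5, 11], [0, 2, 12]]),
  ((4, 14), [[8, 10, 15, 23], [7], [6, 9, 18], [5, 11], [0, 2, 12, 13]]),
  ((4, 15), [[8, 11, 16], [7, 14, 18], [6, 9], [5, 10], [0, 2, 12, 19]]),
  ((4, 16), [[8, 11], [7, 14, 20], [6, 9, 15], [5, 10], [0, 2, 12, 22, 23, 26, 17]]),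
  ((4, 17), [[8, 11, 16], [7, 14, 25], [6, 9, 15], [5, 10], [0, 2, 12, 22, 23, 26]]),
  ((4, 18), [[8, 11, 13, 22], [7, 14], [6, 9], [5, 10, 15], [0, 2, 12, 19]]),
  ((4, 19), [[8, 11, 13], [7, 14, 18], [6, 9], [5, 10, 15], [0, 2, 12]]),
  ((4, 20), [[7, 14], [6, 10, 16], [5, 11], [3, 2, 12, 22, 23, 26, 21], [0, 1, 9, 15, 24]]),
  ((4, 21), [[7, 14, 20], [6, 10, 16], [5, 11], [3, 2, 12, 22, 23, 26], [0, 1, 9, 15, 17]]),
  ((4, 22), [[8, 10, 15, 19], [7, 14], [6, 9, 18], [5, 11, 13], [0, 2, 12]]),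
  ((4, 23), [[8, 11, 20, 24], [7, 14], [6, 9, 18], [5, 10, 15], [0, 2, 12, 22]]),
  ((4, 24), [[8, 11, 20], [7, 14], [6, 9, 18, 23], [5, 10, 17, 25], [0, 2, 12, 19, 15]]),
  ((4, 25), [[8, 11, 20], [7, 14], [6, 9, 15, 24], [5, 10, 17], [0, 2, 12, 22, 23, 26]]),
  ((4, 26), [[8, 11, 21], [7, 14, 24], [6, 9, 15], [5, 10, 17], [0, 2, 12, 22, 23]])]


/-- The edges. -/
def EL : List (Fin 27 × Fin 27) := HL ++ (CP.map Prod.fst ++ CP.map Prod.snd)

/-- Equality of vertices. -/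
def eqb (a b : Fin 27) : Bool := Nat.beq a.1 b.1

theorem eqb_iff {a b : Fin 27} : eqb a b = true ↔ a = b := by
  unfold eqb
  rw [Nat.beq_eq]
  exact Fin.ext_iff.symm

/-- All vertices. -/
def VL : List (Fin 27) := [0, 1, 2, 3, 4, 5, 6, 7, 8, 9, 10, 11, 12, 13, 14, 15, 16, 17, 18, 19, 20,
  21, 22, 23, 24, 25, 26]

theorem mem_VL (v : Fin 27) : v ∈ VL := by
  revert v
  decide

theorem ab_symm (a b : Fin 27) : ab a b = ab b a := by
  have key : al (fun a => al (fun b => orr (nt (ab a b)) (ab b a)) VL) VL = true := by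
    decide +kernel
  have h : ∀ a b, ab a b = true → ab b a = true := by
    intro a b h
    have h1 := orr_iff.1 (al_iff.1 (al_iff.1 key a (mem_VL a)) b (mem_VL b))
    rcases h1 with h1 | h1
    · rw [nt_iff, h] at h1
      exact absurd h1.symm Bool.false_ne_true
    · exact h1
  exact Bool.eq_iff_iff.2 ⟨h a b, h b a⟩

theorem ab_irrefl (a : Fin 27) : ab a a = false := by
  have key : al (fun a => nt (ab a a)) VL = true := by decide +kernel
  exact nt_iff.1 (al_iff.1 key a (mem_VL a))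

/-- The pair is on the list. -/
noncomputable def isE (l : List (Fin 27 × Fin 27)) (a b : Fin 27) : Bool :=
  ay (fun e => an (eqb e.1 a) (eqb e.2 b)) l

theorem isE_iff {l : List (Fin 27 × Fin 27)} {a b : Fin 27} : isE l a b = true ↔ (a, b) ∈ l := by
  unfold isE
  rw [ay_iff]
  constructor
  · rintro ⟨e, he, h⟩
    rw [an_iff, eqb_iff, eqb_iff] at h
    have : e = (a, b) := Prod.ext h.1 h.2
    rwa [← this]
  · intro h
    exact ⟨_, h, an_iff.2 ⟨eqb_iff.2 rfl, eqb_iff.2 rfl⟩⟩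

theorem ab_mem (a b : Fin 27) (h : ab a b = true) : (a, b) ∈ EL ∨ (b, a) ∈ EL := by
  have key : al (fun a => al (fun b => orr (nt (ab a b)) (orr (isE EL a b) (isE EL b a))) VL) VL
      = true := by decide +kernel
  have h1 := orr_iff.1 (al_iff.1 (al_iff.1 key a (mem_VL a)) b (mem_VL b))
  rcases h1 with h1 | h1
  · rw [nt_iff, h] at h1
    exact absurd h1.symm Bool.false_ne_true
  · rw [orr_iff, isE_iff, isE_iff] at h1
    exact h1

theorem mem_ab (e : Fin 27 × Fin 27) (h : e ∈ EL) : ab e.1 e.2 = true := by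
  have key : al (fun e => ab e.1 e.2) EL = true := by decide +kernel
  exact al_iff.1 key e h

/-- The graph. -/
def G : SimpleGraph (Fin 27) where
  Adj a b := ab a b = true
  symm := ⟨fun a b h => by rwa [ab_symm]⟩
  loopless := ⟨fun a h => by rw [ab_irrefl] at h; exact Bool.false_ne_true h⟩

/-- The point of a vertex. -/
def pt (v : Fin 27) : Plane := cc (P v)

/-- The integer segment of an edge. -/
def sg (e : Fin 27 × Fin 27) : IP × IP := (P e.1, P e.2)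

theorem norm {a b : Fin 27} (h : G.Adj a b) :
    ∃ e ∈ EL, s(a, b) = s(e.1, e.2) ∧ Seg pt a b = segment ℝ (cc (sg e).1) (cc (sg e).2) ∧
      ∀ c, (a ≠ c ∧ b ≠ c) ↔ (e.1 ≠ c ∧ e.2 ≠ c) := by
  rcases ab_mem a b h with h' | h'
  · exact ⟨_, h', rfl, rfl, fun c => Iff.rfl⟩
  · exact ⟨_, h', Sym2.eq_swap, segment_symm ℝ _ _, fun c => and_comm⟩

theorem adj_of {e : Fin 27 × Fin 27} (h : e ∈ EL) : G.Adj e.1 e.2 := mem_ab e h

/-- The orientation of a triple is positive. -/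
def ps (a b c : Fin 27) : Bool := gt (X a) (Y a) (X b) (Y b) (X c) (Y c)

/-- The orientation of a triple is negative. -/
def ng (a b c : Fin 27) : Bool := lt (X a) (Y a) (X b) (Y b) (X c) (Y c)

theorem ps_iff (a b c : Fin 27) : ps a b c = true ↔ 0 < oi (P a) (P b) (P c) := gt_iff _ _ _ _ _ _

theorem ng_iff (a b c : Fin 27) : ng a b c = true ↔ oi (P a) (P b) (P c) < 0 := lt_iff _ _ _ _ _ _

/-- The two edges have no common end. -/
noncomputable def dj (e f : Fin 27 × Fin 27) : Bool :=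
  an (an (an (nt (eqb e.1 f.1)) (nt (eqb e.1 f.2))) (nt (eqb e.2 f.1))) (nt (eqb e.2 f.2))

theorem neqb {a b : Fin 27} : nt (eqb a b) = true ↔ a ≠ b := by
  rw [nt_iff, ← Bool.not_eq_true, eqb_iff]

theorem dj_iff {e f : Fin 27 × Fin 27} :
    dj e f = true ↔ (((e.1 ≠ f.1 ∧ e.1 ≠ f.2) ∧ e.2 ≠ f.1) ∧ e.2 ≠ f.2) := by
  unfold dj
  rw [an_iff, an_iff, an_iff, neqb, neqb, neqb, neqb]

/-- The two segments are separated by the line of one of them. -/
noncomputable def sp (e f : Fin 27 × Fin 27) : Bool :=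
  orr (orr (orr (an (ps e.1 e.2 f.1) (ps e.1 e.2 f.2)) (an (ng e.1 e.2 f.1) (ng e.1 e.2 f.2)))
    (an (ps f.1 f.2 e.1) (ps f.1 f.2 e.2))) (an (ng f.1 f.2 e.1) (ng f.1 f.2 e.2))

theorem sp_spec {e f : Fin 27 × Fin 27} (h : sp e f = true) : sepB (sg e) (sg f) = true := by
  unfold sp at h
  simp only [orr_iff, an_iff, ps_iff, ng_iff] at h
  unfold sepB sg
  rw [Bool.or_eq_true, decide_eq_true_eq, decide_eq_true_eq]
  rcases h with ((h | h) | h) | h
  · exact Or.inl (mul_pos h.1 h.2)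
  · exact Or.inl (mul_pos_of_neg_of_neg h.1 h.2)
  · exact Or.inr (mul_pos h.1 h.2)
  · exact Or.inr (mul_pos_of_neg_of_neg h.1 h.2)

theorem sepB_symm {s t : IP × IP} (h : sepB s t = true) : sepB t s = true := by
  unfold sepB at *
  rwa [Bool.or_comm]

/-- The pair is a pair of crossing edges. -/
noncomputable def cp (e f : Fin 27 × Fin 27) : Bool :=
  ay (fun x => an (an (eqb x.1.1 e.1) (eqb x.1.2 e.2)) (an (eqb x.2.1 f.1) (eqb x.2.2 f.2))) CP

theorem cp_spec {e f : Fin 27 × Fin 27} (h : cp e f = true) : (e, f) ∈ CP := by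
  unfold cp at h
  rw [ay_iff] at h
  obtain ⟨x, hx, h⟩ := h
  simp only [an_iff, eqb_iff] at h
  obtain ⟨⟨h1, h2⟩, h3, h4⟩ := h
  have : (e, f) = x := Prod.ext (Prod.ext h1.symm h2.symm) (Prod.ext h3.symm h4.symm)
  rwa [this]

/-- The check of a pair of edges. -/
noncomputable def ok (e f : Fin 27 × Fin 27) : Bool :=
  orr (nt (dj e f)) (orr (sp e f) (orr (cp e f) (cp f e)))

theorem chk0 : al2 ok EL = true := by decide +kernel

theorem dj_symm {e f : Fin 27 × Fin 27} (h : dj e f = true) : dj f e = true := by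
  rw [dj_iff] at *
  obtain ⟨⟨⟨h1, h2⟩, h3⟩, h4⟩ := h
  exact ⟨⟨⟨Ne.symm h1, Ne.symm h3⟩, Ne.symm h2⟩, Ne.symm h4⟩

theorem chk {e : Fin 27 × Fin 27} (he : e ∈ EL) {f : Fin 27 × Fin 27} (hf : f ∈ EL)
    (h : dj e f = true) : ((e, f) ∈ CP ∨ (f, e) ∈ CP) ∨ sepB (sg e) (sg f) = true := by
  have key : ∀ e f : Fin 27 × Fin 27, dj e f = true → ok e f = true →
      ((e, f) ∈ CP ∨ (f, e) ∈ CP) ∨ sepB (sg e) (sg f) = true := by
    intro e f hd h
    unfold ok at h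
    rw [orr_iff, orr_iff, orr_iff, nt_iff, hd] at h
    rcases h with h | h | h | h
    · exact absurd h.symm Bool.false_ne_true
    · exact Or.inr (sp_spec h)
    · exact Or.inl (Or.inl (cp_spec h))
    · exact Or.inl (Or.inr (cp_spec h))
  rcases al2_spec chk0 e he f hf with h1 | h1 | h1
  · exfalso
    subst h1
    rw [dj_iff] at h
    exact h.1.1.1 rfl
  · exact key e f h h1
  · rcases key f e (dj_symm h) h1 with h2 | h2
    · exact Or.inl h2.symm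
    · exact Or.inr (sepB_symm h2)

/-- Equality of edges. -/
noncomputable def eqE (e f : Fin 27 × Fin 27) : Bool := an (eqb e.1 f.1) (eqb e.2 f.2)

theorem eqE_iff {e f : Fin 27 × Fin 27} : eqE e f = true ↔ e = f := by
  unfold eqE
  rw [an_iff, eqb_iff, eqb_iff]
  exact Prod.ext_iff.symm

theorem CP_uniq : al (fun x => al (fun y => an (nt (eqE x.1 y.2))
    (an (orr (nt (eqE x.1 y.1)) (eqE x.2 y.2)) (orr (nt (eqE x.2 y.2)) (eqE x.1 y.1)))) CP) CP
      = true := by decide +kernel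

theorem CP_partner {x y z : Fin 27 × Fin 27} (h1 : (x, y) ∈ CP ∨ (y, x) ∈ CP)
    (h2 : (x, z) ∈ CP ∨ (z, x) ∈ CP) : y = z := by
  have key : ∀ a ∈ CP, ∀ b ∈ CP, a.1 ≠ b.2 ∧ (a.1 = b.1 → a.2 = b.2) ∧ (a.2 = b.2 → a.1 = b.1) := by
    intro a ha b hb
    have h := al_iff.1 (al_iff.1 CP_uniq a ha) b hb
    simp only [an_iff, orr_iff, eqE_iff, nt_iff] at h
    simp only [← Bool.not_eq_true, eqE_iff] at h
    exact ⟨h.1, fun e => h.2.1.resolve_left (not_not.2 e), fun e => h.2.2.resolve_left (not_not.2 e)⟩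
  rcases h1 with h1 | h1 <;> rcases h2 with h2 | h2
  · exact (key _ h1 _ h2).2.1 rfl
  · exact absurd rfl (key _ h1 _ h2).1
  · exact absurd rfl (key _ h2 _ h1).1
  · exact (key _ h1 _ h2).2.2 rfl

/-- The two segments cross properly. -/
noncomputable def cr (e f : Fin 27 × Fin 27) : Bool :=
  an (orr (an (ps e.1 e.2 f.1) (ng e.1 e.2 f.2)) (an (ng e.1 e.2 f.1) (ps e.1 e.2 f.2)))
    (orr (an (ps f.1 f.2 e.1) (ng f.1 f.2 e.2)) (an (ng f.1 f.2 e.1) (ps f.1 f.2 e.2)))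

theorem cr_spec {e f : Fin 27 × Fin 27} (h : cr e f = true) : crsB (sg e) (sg f) = true := by
  unfold cr at h
  simp only [orr_iff, an_iff, ps_iff, ng_iff] at h
  unfold crsB sg
  rw [Bool.and_eq_true, decide_eq_true_eq, decide_eq_true_eq]
  refine ⟨?_, ?_⟩
  · rcases h.1 with h | h
    · exact mul_neg_of_pos_of_neg h.1 h.2
    · exact mul_neg_of_neg_of_pos h.1 h.2
  · rcases h.2 with h | h
    · exact mul_neg_of_pos_of_neg h.1 h.2
    · exact mul_neg_of_neg_of_pos h.1 h.2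

theorem crsB_symm {s t : IP × IP} (h : crsB s t = true) : crsB t s = true := by
  unfold crsB at *
  rwa [Bool.and_comm]

theorem CP_ok0 : al (fun x => an (an (cr x.1 x.2) (dj x.1 x.2))
    (an (isE EL x.1.1 x.1.2) (isE EL x.2.1 x.2.2))) CP = true := by decide +kernel

theorem CP_ok (x : (Fin 27 × Fin 27) × (Fin 27 × Fin 27)) (hx : x ∈ CP) :
    crsB (sg x.1) (sg x.2) = true ∧ crsB (sg x.2) (sg x.1) = true ∧
    dj x.1 x.2 = true ∧ dj x.2 x.1 = true ∧ x.1 ∈ EL ∧ x.2 ∈ EL := by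
  have h := al_iff.1 CP_ok0 x hx
  rw [an_iff, an_iff, an_iff, isE_iff, isE_iff] at h
  have h1 := cr_spec h.1.1
  exact ⟨h1, crsB_symm h1, h.1.2, dj_symm h.1.2, h.2.1, h.2.2⟩

theorem gp0 : al (fun e => al (fun c => orr (orr (ps e.1 e.2 c) (ng e.1 e.2 c))
    (orr (eqb e.1 c) (eqb e.2 c))) VL) EL = true := by
  decide +kernel

theorem gp {e : Fin 27 × Fin 27} (he : e ∈ EL) (c : Fin 27) (h1 : e.1 ≠ c) (h2 : e.2 ≠ c) :
    oi (P e.1) (P e.2) (P c) ≠ 0 := by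
  have h := al_iff.1 (al_iff.1 gp0 e he) c (mem_VL c)
  rw [orr_iff, orr_iff, orr_iff, eqb_iff, eqb_iff] at h
  replace h := h.resolve_right (not_or.2 ⟨h1, h2⟩)
  rw [ps_iff, ng_iff] at h
  rcases h with h | h
  · exact h.ne'
  · exact h.ne

theorem inj_P {a b : Fin 27} (h : P a = P b) : a = b := by
  have key : al (fun a => al (fun b => orr (nt (an (Nat.beq (X a) (X b)) (Nat.beq (Y a) (Y b))))
      (eqb a b)) VL) VL = true := by decide +kernel
  have h1 := al_iff.1 (al_iff.1 key a (mem_VL a)) b (mem_VL b)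
  rw [orr_iff, nt_iff, ← Bool.not_eq_true, an_iff, Nat.beq_eq, Nat.beq_eq, eqb_iff] at h1
  have h2 : (X a : ℤ) = X b := congrArg Prod.fst h
  have h3 : (Y a : ℤ) = Y b := congrArg Prod.snd h
  exact h1.resolve_left (not_not.2 ⟨by exact_mod_cast h2, by exact_mod_cast h3⟩)

theorem inj_pt : Function.Injective pt := fun _ _ h => inj_P (cc_inj h)

theorem cross_norm {a b c d : Fin 27} (h1 : G.Adj a b) (h2 : G.Adj c d) (h : Crosses pt a b c d) :
    ∃ e ∈ EL, ∃ f ∈ EL, s(a, b) = s(e.1, e.2) ∧ s(c, d) = s(f.1, f.2) ∧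
      Seg pt a b = segment ℝ (cc (sg e).1) (cc (sg e).2) ∧
      Seg pt c d = segment ℝ (cc (sg f).1) (cc (sg f).2) ∧ dj e f = true ∧
      ((e, f) ∈ CP ∨ (f, e) ∈ CP) := by
  obtain ⟨e, he, e1, e2, e3⟩ := norm h1
  obtain ⟨f, hf, f1, f2, f3⟩ := norm h2
  obtain ⟨n1, n2, n3, n4, x, hx1, hx2⟩ := h
  have m1 := (e3 c).1 ⟨n1, n3⟩
  have m2 := (e3 d).1 ⟨n2, n4⟩
  have m3 := (f3 e.1).1 ⟨m1.1.symm, m2.1.symm⟩
  have m4 := (f3 e.2).1 ⟨m1.2.symm, m2.2.symm⟩
  have hd : dj e f = true := dj_iff.2 ⟨⟨⟨m3.1.symm, m3.2.symm⟩, m4.1.symm⟩, m4.2.symm⟩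
  refine ⟨e, he, f, hf, e1, f1, e2, f2, hd, ?_⟩
  rcases chk he hf hd with h | h
  · exact h
  · rw [e2] at hx1
    rw [f2] at hx2
    exact (sepB_spec h hx1 hx2).elim

theorem edge_unique {e f : Fin 27 × Fin 27} (he : e ∈ EL) (hf : f ∈ EL)
    (h : s(e.1, e.2) = s(f.1, f.2)) : e = f := by
  have key : al (fun e => Nat.ble (Nat.succ e.1.1) e.2.1) EL = true := by decide +kernel
  have h1 : ∀ e ∈ EL, e.1 < e.2 := by
    intro e he
    have := al_iff.1 key e he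
    rw [ble_iff] at this
    exact this
  rw [Sym2.eq_iff] at h
  rcases h with h | h
  · exact Prod.ext h.1 h.2
  · have h2 := h1 e he
    rw [h.1, h.2] at h2
    exact absurd h2 (not_lt.2 (h1 f hf).le)

theorem onePlane : OnePlane G pt := by
  refine ⟨inj_pt, ?_, ?_⟩
  · intro a b c h hc
    obtain ⟨e, he, -, e2, e3⟩ := norm h
    rw [e2] at hc
    have h1 := ori_zero_of_mem hc
    unfold pt sg at h1
    rw [ori_cc] at h1
    by_contra hn
    rw [not_or] at hn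
    obtain ⟨n1, n2⟩ := (e3 c).1 ⟨fun e => hn.1 e.symm, fun e => hn.2 e.symm⟩
    exact gp he c n1 n2 (by exact_mod_cast h1)
  · intro a b c d e f h1 h2 h3 hc hc'
    obtain ⟨x, hx, y, hy, x1, y1, -, -, hd, hcr⟩ := cross_norm h1 h2 hc
    obtain ⟨x', hx', y', hy', x1', y1', -, -, hd', hcr'⟩ := cross_norm h1 h3 hc'
    have : x = x' := edge_unique hx hx' (by rw [← x1, ← x1'])
    subst this
    rw [y1, y1', CP_partner hcr hcr']

/-! ### Maximality -/

/-- The half-planes of a cell. -/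
def rg (r : List (Fin 27 × Fin 27)) : List (IP × IP) := r.map sg

/-- The check that each line contains a side of the cell. -/
noncomputable def frF (r : List (Fin 27 × Fin 27)) : Bool :=
  al (fun s => an (nt (eqb s.1 s.2))
    (an (ay (fun t => an (ps t.1 t.2 s.1) (nt (ps t.1 t.2 s.2))) r)
      (ay (fun t => an (nt (ps t.1 t.2 s.1)) (ps t.1 t.2 s.2)) r))) r

theorem not_ps {a b c : Fin 27} : nt (ps a b c) = true ↔ oi (P a) (P b) (P c) ≤ 0 := by
  rw [nt_iff, ← Bool.not_eq_true, ps_iff, not_lt]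

theorem not_ng {a b c : Fin 27} : nt (ng a b c) = true ↔ 0 ≤ oi (P a) (P b) (P c) := by
  rw [nt_iff, ← Bool.not_eq_true, ng_iff, not_lt]

theorem frF_spec {r : List (Fin 27 × Fin 27)} (h : frF r = true) : frB (rg r) = true := by
  unfold frB
  rw [List.all_eq_true]
  intro s hs
  obtain ⟨s', hs', rfl⟩ := List.mem_map.1 hs
  have h1 := al_iff.1 h s' hs'
  rw [an_iff, an_iff, ay_iff, ay_iff] at h1
  obtain ⟨h0, ⟨t, ht, h2⟩, t', ht', h3⟩ := h1
  rw [neqb] at h0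
  rw [an_iff, not_ps, ps_iff] at h2 h3
  rw [Bool.and_eq_true, Bool.and_eq_true, decide_eq_true_eq, List.any_eq_true, List.any_eq_true]
  refine ⟨⟨fun e => h0 (inj_P e), sg t, List.mem_map.2 ⟨t, ht, rfl⟩, ?_⟩,
    sg t', List.mem_map.2 ⟨t', ht', rfl⟩, ?_⟩
  · rw [Bool.and_eq_true, decide_eq_true_eq, decide_eq_true_eq]
    exact h2
  · rw [Bool.and_eq_true, decide_eq_true_eq, decide_eq_true_eq]
    exact h3

theorem RL_fr (r : List (Fin 27 × Fin 27)) (h : r ∈ RL) : frB (rg r) = true := by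
  have key : al frF RL = true := by decide +kernel
  exact frF_spec (al_iff.1 key r h)

theorem OL_fr : frB (rg OL) = true := by
  have key : frF OL = true := by decide +kernel
  exact frF_spec key

theorem RL_EL (r : List (Fin 27 × Fin 27)) (h : r ∈ RL) (s : Fin 27 × Fin 27) (hs : s ∈ r) :
    ab s.1 s.2 = true := by
  have key : al (fun r => al (fun s => ab s.1 s.2) r) RL = true := by decide +kernel
  exact al_iff.1 (al_iff.1 key r h) s hs

theorem OL_EL (s : Fin 27 × Fin 27) (hs : s ∈ OL) : ab s.1 s.2 = true := by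
  have key : al (fun s => ab s.1 s.2) OL = true := by decide +kernel
  exact al_iff.1 key s hs

theorem cover {x : Plane} (h : x ∈ Kc (rg OL)) : ∃ r ∈ RL, x ∈ Kc (rg r) := by
  have key : cv X Y RL tree OL = true := by decide +kernel
  exact cv_spec X Y tree OL key fun c hc => by
    rw [ev_aff]
    exact h (sg c) (List.mem_map.2 ⟨c, hc, rfl⟩)

/-- The vertices of a bounded cell. -/
noncomputable def co (r : List (Fin 27 × Fin 27)) : List (Fin 27) :=
  fl (fun v => al (fun s => nt (ng s.1 s.2 v)) r) VL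

/-- The vertices of the unbounded cell. -/
noncomputable def coO : List (Fin 27) := fl (fun v => nt (al (fun s => ps s.1 s.2 v) OL)) VL

theorem co_mem {r : List (Fin 27 × Fin 27)} {v : Fin 27} (h : pt v ∈ Kc (rg r)) : v ∈ co r := by
  unfold co
  rw [mem_fl, al_iff]
  refine ⟨mem_VL v, fun s hs => ?_⟩
  rw [not_ng]
  have := h (sg s) (List.mem_map.2 ⟨s, hs, rfl⟩)
  unfold pt sg at this
  rw [ori_cc] at this
  exact_mod_cast this

theorem coO_mem {v : Fin 27} (h : pt v ∉ Ko (rg OL)) : v ∈ coO := by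
  unfold coO
  rw [mem_fl]
  refine ⟨mem_VL v, ?_⟩
  rw [nt_iff, ← Bool.not_eq_true, al_iff]
  intro h1
  apply h
  intro s hs
  obtain ⟨t, ht, rfl⟩ := List.mem_map.1 hs
  have := (ps_iff _ _ _).1 (h1 t ht)
  unfold pt sg
  rw [ori_cc]
  exact_mod_cast this

/-- All pairs of vertices of the two lists are adjacent or equal. -/
noncomputable def clq (l l' : List (Fin 27)) : Bool := al (fun u => al (fun v => orr (eqb u v) (ab u v)) l') l

theorem clq_spec {l l' : List (Fin 27)} (h : clq l l' = true) {u v : Fin 27} (hu : u ∈ l)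
    (hv : v ∈ l') : u = v ∨ G.Adj u v := by
  have h2 := al_iff.1 (al_iff.1 h u hu) v hv
  rw [orr_iff, eqb_iff] at h2
  exact h2

theorem clq_symm {l l' : List (Fin 27)} (h : clq l l' = true) {u v : Fin 27} (hu : u ∈ l')
    (hv : v ∈ l) : u = v ∨ G.Adj u v := by
  rcases clq_spec h hv hu with h | h
  · exact Or.inl h.symm
  · exact Or.inr h.symm

theorem RL_clq (r : List (Fin 27 × Fin 27)) (h : r ∈ RL) : clq (co r) (co r) = true := by
  have key : al (fun r => clq (co r) (co r)) RL = true := by decide +kernel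
  exact al_iff.1 key r h

theorem O_clq : clq coO coO = true := by decide +kernel

/-- The side `a b` of a cell. -/
noncomputable def sd (r : List (Fin 27 × Fin 27)) (a b : Fin 27) : Bool :=
  an (isE r a b) (al (fun s => orr (eqE s (a, b)) (an (an (nt (ng s.1 s.2 a)) (nt (ng s.1 s.2 b)))
    (orr (ps s.1 s.2 a) (ps s.1 s.2 b)))) r)

theorem sd_spec {r : List (Fin 27 × Fin 27)} {a b : Fin 27} (h : sd r a b = true)
    {p q : IP} (hpq : (p = P a ∧ q = P b) ∨ (p = P b ∧ q = P a)) :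
    (a, b) ∈ r ∧ inB (wo (rg r) (sg (a, b))) p q = true := by
  unfold sd at h
  rw [an_iff, isE_iff] at h
  refine ⟨h.1, ?_⟩
  unfold inB
  rw [List.all_eq_true]
  intro s hs
  rw [mem_wo] at hs
  obtain ⟨hs, hne⟩ := hs
  obtain ⟨t, ht, rfl⟩ := List.mem_map.1 hs
  have h1 := al_iff.1 h.2 t ht
  rw [orr_iff, eqE_iff, an_iff, an_iff, not_ng, not_ng, orr_iff, ps_iff, ps_iff] at h1
  obtain ⟨⟨h2, h3⟩, h4⟩ := h1.resolve_left fun e => hne (by rw [e])
  rw [Bool.and_eq_true, Bool.and_eq_true, Bool.or_eq_true, decide_eq_true_eq, decide_eq_true_eq,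
    decide_eq_true_eq, decide_eq_true_eq]
  rcases hpq with ⟨rfl, rfl⟩ | ⟨rfl, rfl⟩
  · exact ⟨⟨h2, h3⟩, h4⟩
  · exact ⟨⟨h3, h2⟩, h4.symm⟩

/-- The check of an edge and its two cells. -/
noncomputable def okC (a b : Fin 27) (r : List (Fin 27 × Fin 27))
    (o : Option (List (Fin 27 × Fin 27))) : Bool :=
  an (sd r a b) (@Option.rec _ (fun _ => Bool) (an (isE OL a b) (clq (co r) coO))
    (fun r' => an (sd r' b a) (clq (co r) (co r'))) o)

/-- The cells with the numbers `i` and `j` are on the left and on the right side of `a b`. -/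
noncomputable def okB (a b : Fin 27) (i j : ℕ) : Bool :=
  @Option.rec _ (fun _ => Bool) false (fun r => okC a b r RL[j]?) RL[i]?

theorem all_ok0 : al (fun x => orr (okB x.1.1 x.1.2 x.2.1 x.2.2) (okB x.1.2 x.1.1 x.2.2 x.2.1)) ND
    = true := by decide +kernel

theorem all_ok (x : (Fin 27 × Fin 27) × (ℕ × ℕ)) (h : x ∈ ND) :
    okB x.1.1 x.1.2 x.2.1 x.2.2 = true ∨ okB x.1.2 x.1.1 x.2.2 x.2.1 = true :=
  orr_iff.1 (al_iff.1 all_ok0 x h)

theorem uncrossed_HL {e : Fin 27 × Fin 27} (he : e ∈ EL) (hn : e ∉ HL) :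
    ∃ f ∈ EL, dj e f = true ∧ crsB (sg e) (sg f) = true := by
  unfold EL at he
  rw [List.mem_append, List.mem_append, List.mem_map, List.mem_map] at he
  rcases he with he | ⟨x, hx, rfl⟩ | ⟨x, hx, rfl⟩
  · exact absurd he hn
  · obtain ⟨h1, -, h3, -, -, h6⟩ := CP_ok x hx
    exact ⟨_, h6, h3, h1⟩
  · obtain ⟨-, h2, -, h4, h5, -⟩ := CP_ok x hx
    exact ⟨_, h5, h4, h2⟩

/-- The abstract argument: two neighbouring cells. -/
theorem two_cells {A S F₁ F₂ C₁ C₂ N E : Set Plane} (hA : IsPreconnected A) (hAS : Disjoint A S)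
    (o1 : IsOpen F₁) (o2 : IsOpen F₂) (oN : IsOpen N) (c1 : IsClosed C₁) (c2 : IsClosed C₂)
    (s1 : F₁ ⊆ C₁) (s2 : F₂ ⊆ C₂) (hEC : E ⊆ C₁) (hN : N ⊆ F₁ ∪ F₂ ∪ E) (hE : E ⊆ N)
    (b1 : ∀ x ∈ C₁, x ∉ F₁ → x ∈ S ∨ x ∈ E) (b2 : ∀ x ∈ C₂, x ∉ F₂ → x ∈ S ∨ x ∈ E)
    (hne : (A ∩ E).Nonempty) : closure A ⊆ C₁ ∪ C₂ := by
  have hM : A ⊆ F₁ ∪ F₂ ∪ N := by
    apply stay hA ((o1.union o2).union oN)
    · obtain ⟨x, hx, hx'⟩ := hne
      exact ⟨x, hx, Or.inr (hE hx')⟩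
    · have hcl : closure (F₁ ∪ F₂ ∪ N) ⊆ C₁ ∪ C₂ := by
        apply closure_minimal _ (c1.union c2)
        intro x hx
        rcases hx with (hx | hx) | hx
        · exact Or.inl (s1 hx)
        · exact Or.inr (s2 hx)
        · rcases hN hx with (hx | hx) | hx
          · exact Or.inl (s1 hx)
          · exact Or.inr (s2 hx)
          · exact Or.inl (hEC hx)
      rintro x ⟨hx, hxA⟩
      have hxS : x ∉ S := fun h => Set.disjoint_left.1 hAS hxA h
      rcases hcl hx with h | h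
      · by_cases h' : x ∈ F₁
        · exact Or.inl (Or.inl h')
        · exact Or.inr (hE ((b1 x h h').resolve_left hxS))
      · by_cases h' : x ∈ F₂
        · exact Or.inl (Or.inr h')
        · exact Or.inr (hE ((b2 x h h').resolve_left hxS))
  refine (closure_minimal ?_ (c1.union c2))
  intro x hx
  rcases hM hx with (h | h) | h
  · exact Or.inl (s1 h)
  · exact Or.inr (s2 h)
  · rcases hN h with (h | h) | h
    · exact Or.inl (s1 h)
    · exact Or.inr (s2 h)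
    · exact Or.inl (hEC h)

theorem one_cell {A S F C : Set Plane} (hA : IsPreconnected A) (hAS : Disjoint A S)
    (o : IsOpen F) (c : IsClosed C) (s : F ⊆ C) (b : ∀ x ∈ C, x ∉ F → x ∈ S)
    (hne : (A ∩ F).Nonempty) : closure A ⊆ C := by
  have hM : A ⊆ F := by
    apply stay hA o hne
    rintro x ⟨hx, hxA⟩
    have hxC : x ∈ C := closure_minimal s c hx
    by_contra h
    exact Set.disjoint_left.1 hAS hxA (b x hxC h)
  exact closure_minimal (hM.trans s) c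

theorem Ko_of {l : List (IP × IP)} {s : IP × IP} {x : Plane} (h1 : x ∈ Ko (wo l s))
    (h2 : 0 < ori (cc s.1) (cc s.2) x) : x ∈ Ko l := by
  intro t ht
  by_cases h : t = s
  · rw [h]
    exact h2
  · exact h1 t (mem_wo.2 ⟨ht, h⟩)

theorem ori_swap (p q x : Plane) : ori q p x = -ori p q x := by
  rw [ori_eq, ori_eq]
  ring

theorem openSeg_Kc {l : List (IP × IP)} {s : IP × IP} {x : Plane}
    (h : inB (wo l s) s.1 s.2 = true) (hx : x ∈ openSegment ℝ (cc s.1) (cc s.2)) : x ∈ Kc l := by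
  intro t ht
  by_cases h' : t = s
  · rw [h', ori_zero_of_mem (openSegment_subset_segment _ _ _ hx)]
  · exact (inB_spec h hx t (mem_wo.2 ⟨ht, h'⟩)).le

/-- The case of an edge that is met by the arc. -/
theorem case_edge {A : Set Plane} (hA : IsPreconnected A) (hv : ∀ w, pt w ∉ A) {a b : Fin 27}
    {i j : ℕ} (hab : okB a b i j = true) (honly : ∀ c d, G.Adj c d → (A ∩ Seg pt c d).Nonempty →
      s(a, b) = s(c, d)) (hmeet : (A ∩ Seg pt a b).Nonempty) {u v : Fin 27}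
    (hu : pt u ∈ closure A) (hv' : pt v ∈ closure A) : u = v ∨ G.Adj u v := by
  set S : Set Plane := {x | ∃ c d, G.Adj c d ∧ s(a, b) ≠ s(c, d) ∧ x ∈ Seg pt c d} ∪ Set.range pt
    with hS
  have hAS : Disjoint A S := by
    rw [Set.disjoint_left]
    rintro x hx (⟨c, d, hcd, hne, hx'⟩ | ⟨w, rfl⟩)
    · exact hne (honly c d hcd ⟨x, hx, hx'⟩)
    · exact hv w hx
  have side : ∀ s : Fin 27 × Fin 27, ab s.1 s.2 = true → ∀ x ∈ segment ℝ (cc (sg s).1) (cc (sg s).2),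
      x ∈ S ∨ x ∈ openSegment ℝ (cc (P a)) (cc (P b)) := by
    intro s hs x hx
    by_cases he : s(a, b) = s(s.1, s.2)
    · have h1 : x ∈ segment ℝ (cc (P a)) (cc (P b)) := by
        rw [Sym2.eq_iff] at he
        rcases he with ⟨e1, e2⟩ | ⟨e1, e2⟩
        · rw [e1, e2]
          exact hx
        · rw [e1, e2, segment_symm]
          exact hx
      by_cases h2 : x = cc (P a)
      · left
        right
        exact ⟨a, h2.symm⟩
      by_cases h3 : x = cc (P b)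
      · left
        right
        exact ⟨b, h3.symm⟩
      right
      exact mem_openSegment_of_ne_left_right (Ne.symm h2) (Ne.symm h3) h1
    · left
      left
      exact ⟨s.1, s.2, hs, he, hx⟩
  obtain ⟨x, hxA, hxs⟩ := hmeet
  have hxo : x ∈ openSegment ℝ (cc (P a)) (cc (P b)) := by
    apply mem_openSegment_of_ne_left_right _ _ hxs
    · rintro rfl
      exact hv a hxA
    · rintro rfl
      exact hv b hxA
  unfold okB at hab
  rcases hri : RL[i]? with _ | r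
  · rw [hri] at hab
    exact absurd hab Bool.false_ne_true
  rw [hri] at hab
  have hr : r ∈ RL := List.mem_of_getElem? hri
  have hab : okC a b r RL[j]? = true := hab
  unfold okC at hab
  rw [an_iff] at hab
  obtain ⟨hsd, hab⟩ := hab
  obtain ⟨hm, hin⟩ := sd_spec hsd (Or.inl ⟨rfl, rfl⟩)
  have hfr := RL_fr r hr
  have hm' : sg (a, b) ∈ rg r := List.mem_map.2 ⟨_, hm, rfl⟩
  have b1 : ∀ x ∈ Kc (rg r), x ∉ Ko (rg r) →
      x ∈ S ∨ x ∈ openSegment ℝ (cc (P a)) (cc (P b)) := by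
    intro x hx hx'
    obtain ⟨s, hs, hxs⟩ := fr_spec hfr hx hx'
    obtain ⟨t, ht, rfl⟩ := List.mem_map.1 hs
    exact side t (RL_EL r hr t ht) x hxs
  have hEC : openSegment ℝ (cc (P a)) (cc (P b)) ⊆ Kc (rg r) := fun x hx => openSeg_Kc hin hx
  rcases hrj : RL[j]? with _ | r'
  swap
  · rw [hrj] at hab
    have hr' : r' ∈ RL := List.mem_of_getElem? hrj
    have hab : an (sd r' b a) (clq (co r) (co r')) = true := hab
    rw [an_iff] at hab
    obtain ⟨hsd2, hcl⟩ := hab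
    obtain ⟨hm2, hin2⟩ := sd_spec hsd2 (p := P a) (q := P b) (Or.inr ⟨rfl, rfl⟩)
    have hfr' := RL_fr r' hr'
    have b2 : ∀ x ∈ Kc (rg r'), x ∉ Ko (rg r') →
        x ∈ S ∨ x ∈ openSegment ℝ (cc (P a)) (cc (P b)) := by
      intro x hx hx'
      obtain ⟨s, hs, hxs⟩ := fr_spec hfr' hx hx'
      obtain ⟨t, ht, rfl⟩ := List.mem_map.1 hs
      exact side t (RL_EL r' hr' t ht) x hxs
    have key := two_cells (N := Ko (wo (rg r) (sg (a, b))) ∩ Ko (wo (rg r') (sg (b, a))))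
      (E := openSegment ℝ (cc (P a)) (cc (P b))) hA hAS (isOpen_Ko (rg r)) (isOpen_Ko (rg r'))
      ((isOpen_Ko _).inter (isOpen_Ko _)) (isClosed_Kc _) (isClosed_Kc _) (Ko_sub_Kc _)
      (Ko_sub_Kc _) hEC (by
        rintro y ⟨hy1, hy2⟩
        rcases lt_trichotomy 0 (ori (cc (P a)) (cc (P b)) y) with h | h | h
        · exact Or.inl (Or.inl (Ko_of hy1 h))
        · exact Or.inr (line_open hfr hm' hy1 h.symm)
        · refine Or.inl (Or.inr (Ko_of hy2 ?_))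
          show 0 < ori (cc (P b)) (cc (P a)) y
          rw [ori_swap]
          linarith) (fun y hy => ⟨inB_spec hin hy, inB_spec hin2 hy⟩) b1 b2 ⟨x, hxA, hxo⟩
    have hrr := RL_clq r hr
    have hrr' := RL_clq r' hr'
    rcases key hu with h | h <;> rcases key hv' with h' | h'
    · exact clq_spec hrr (co_mem h) (co_mem h')
    · exact clq_spec hcl (co_mem h) (co_mem h')
    · exact clq_symm hcl (co_mem h) (co_mem h')
    · exact clq_spec hrr' (co_mem h) (co_mem h')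
  · rw [hrj] at hab
    have hab : an (isE OL a b) (clq (co r) coO) = true := hab
    rw [an_iff, isE_iff] at hab
    obtain ⟨hmO, hcl⟩ := hab
    have hmO' : sg (a, b) ∈ rg OL := List.mem_map.2 ⟨_, hmO, rfl⟩
    have b2 : ∀ x ∈ (Ko (rg OL))ᶜ, x ∉ (Kc (rg OL))ᶜ →
        x ∈ S ∨ x ∈ openSegment ℝ (cc (P a)) (cc (P b)) := by
      intro x hx hx'
      rw [Set.notMem_compl_iff] at hx'
      obtain ⟨s, hs, hxs⟩ := fr_spec OL_fr hx' hx
      obtain ⟨t, ht, rfl⟩ := List.mem_map.1 hs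
      exact side t (OL_EL t ht) x hxs
    have key := two_cells (N := Ko (wo (rg r) (sg (a, b))))
      (E := openSegment ℝ (cc (P a)) (cc (P b))) hA hAS (isOpen_Ko (rg r))
      (isClosed_Kc (rg OL)).isOpen_compl (isOpen_Ko _) (isClosed_Kc _)
      (isOpen_Ko (rg OL)).isClosed_compl (Ko_sub_Kc _)
      (Set.compl_subset_compl.2 (Ko_sub_Kc _)) hEC (by
        rintro y hy1
        rcases lt_trichotomy 0 (ori (cc (P a)) (cc (P b)) y) with h | h | h
        · exact Or.inl (Or.inl (Ko_of hy1 h))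
        · exact Or.inr (line_open hfr hm' hy1 h.symm)
        · refine Or.inl (Or.inr fun h' => ?_)
          have := h' _ hmO'
          exact absurd this (not_le.2 h)) (fun y hy => inB_spec hin hy) b1 b2 ⟨x, hxA, hxo⟩
    rcases key hu with h | h <;> rcases key hv' with h' | h'
    · exact clq_spec (RL_clq r hr) (co_mem h) (co_mem h')
    · exact clq_spec hcl (co_mem h) (coO_mem h')
    · exact clq_symm hcl (coO_mem h) (co_mem h')
    · exact clq_spec O_clq (coO_mem h) (coO_mem h')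

/-- The case of an arc that meets no edge. -/
theorem case_face {A : Set Plane} (hA : IsPreconnected A) (hne : A.Nonempty)
    (hno : ∀ c d, G.Adj c d → ¬ (A ∩ Seg pt c d).Nonempty) {u v : Fin 27}
    (hu : pt u ∈ closure A) (hv' : pt v ∈ closure A) : u = v ∨ G.Adj u v := by
  set S : Set Plane := {x | ∃ c d, G.Adj c d ∧ x ∈ Seg pt c d} with hS
  have hAS : Disjoint A S := by
    rw [Set.disjoint_left]
    rintro x hx ⟨c, d, hcd, hx'⟩
    exact hno c d hcd ⟨x, hx, hx'⟩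
  obtain ⟨x, hx⟩ := hne
  by_cases h1 : x ∈ Kc (rg OL)
  · obtain ⟨r, hr, h2⟩ := cover h1
    have b1 : ∀ x ∈ Kc (rg r), x ∉ Ko (rg r) → x ∈ S := by
      intro x hx hx'
      obtain ⟨s, hs, hxs⟩ := fr_spec (RL_fr r hr) hx hx'
      obtain ⟨t, ht, rfl⟩ := List.mem_map.1 hs
      exact ⟨t.1, t.2, RL_EL r hr t ht, hxs⟩
    have h3 : x ∈ Ko (rg r) := by
      by_contra h3
      exact Set.disjoint_left.1 hAS hx (b1 x h2 h3)
    have key := one_cell hA hAS (isOpen_Ko _) (isClosed_Kc _) (Ko_sub_Kc _) b1 ⟨x, hx, h3⟩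
    exact clq_spec (RL_clq r hr) (co_mem (key hu)) (co_mem (key hv'))
  · have b2 : ∀ x ∈ (Ko (rg OL))ᶜ, x ∉ (Kc (rg OL))ᶜ → x ∈ S := by
      intro x hx hx'
      rw [Set.notMem_compl_iff] at hx'
      obtain ⟨s, hs, hxs⟩ := fr_spec OL_fr hx' hx
      obtain ⟨t, ht, rfl⟩ := List.mem_map.1 hs
      exact ⟨t.1, t.2, OL_EL t ht, hxs⟩
    have key := one_cell hA hAS (isClosed_Kc (rg OL)).isOpen_compl
      (isOpen_Ko (rg OL)).isClosed_compl (Set.compl_subset_compl.2 (Ko_sub_Kc _)) b2 ⟨x, hx, h1⟩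
    exact clq_spec O_clq (coO_mem (key hu)) (coO_mem (key hv'))

theorem maximal (u v : Fin 27) (huv : u ≠ v) (hn : ¬ G.Adj u v) : ¬ CanAdd G pt u v := by
  rintro ⟨γ, hc, -, h0, h1, hw, hone, hcr⟩
  set A : Set Plane := γ '' Ioo 0 1 with hAdef
  have hA : IsPreconnected A := isPreconnected_Ioo.image _ (hc.mono Ioo_subset_Icc_self)
  have hcl : γ '' Icc 0 1 ⊆ closure A := by
    have h : closure (Ioo (0 : ℝ) 1) = Icc 0 1 := closure_Ioo (by norm_num)
    have h2 : ContinuousOn γ (closure (Ioo 0 1)) := by rw [h]; exact hc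
    have h3 := h2.image_closure
    rwa [h] at h3
  have hu : pt u ∈ closure A := hcl ⟨0, by simp, h0⟩
  have hv : pt v ∈ closure A := hcl ⟨1, by simp, h1⟩
  have meets_iff : ∀ a b, (A ∩ Seg pt a b).Nonempty ↔ Meets γ pt a b := by
    intro a b
    constructor
    · rintro ⟨x, ⟨t, ht, rfl⟩, hx⟩
      exact ⟨t, ht, hx⟩
    · rintro ⟨t, ht, hx⟩
      exact ⟨γ t, ⟨t, ht, rfl⟩, hx⟩
  have res : u = v ∨ G.Adj u v := by
    by_cases hm : ∃ a b, G.Adj a b ∧ Meets γ pt a b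
    · obtain ⟨a, b, hab, hm⟩ := hm
      obtain ⟨e, he, e1, e2, e3⟩ := norm hab
      have hwA : ∀ w, pt w ∉ A := by
        rintro w ⟨t, ht, hw'⟩
        exact hw t ht w hw'
      have heH : e ∈ HL := by
        by_contra hH
        obtain ⟨f, hf, hd, hcrs⟩ := uncrossed_HL he hH
        obtain ⟨⟨x, hx1, hx2⟩, -, -⟩ := crsB_spec hcrs
        rw [dj_iff] at hd
        obtain ⟨⟨⟨d1, d2⟩, d3⟩, d4⟩ := hd
        have m1 := (e3 f.1).2 ⟨d1, d3⟩
        have m2 := (e3 f.2).2 ⟨d2, d4⟩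
        refine hcr a b f.1 f.2 hab (adj_of hf) hm ⟨m1.1, m2.1, m1.2, m2.2, x, ?_, ?_⟩
        · rw [e2]
          exact openSegment_subset_segment _ _ _ hx1
        · exact openSegment_subset_segment _ _ _ hx2
      have honly : ∀ c d, G.Adj c d → (A ∩ Seg pt c d).Nonempty → s(a, b) = s(c, d) :=
        fun c d hcd h => hone a b c d hab hcd hm ((meets_iff c d).1 h)
      unfold HL at heH
      rw [List.mem_map] at heH
      obtain ⟨x, hx, rfl⟩ := heH
      have hok := all_ok x hx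
      rcases hok with hok | hok
      · refine case_edge hA hwA hok (fun c d hcd h => ?_) ?_ hu hv
        · rw [← e1]
          exact honly c d hcd h
        · have := (meets_iff a b).2 hm
          rw [e2] at this
          exact this
      · refine case_edge hA hwA hok (fun c d hcd h => ?_) ?_ hu hv
        · rw [Sym2.eq_swap, ← e1]
          exact honly c d hcd h
        · have := (meets_iff a b).2 hm
          rw [e2] at this
          unfold Seg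
          rw [segment_symm]
          exact this
    · push Not at hm
      refine case_face hA ⟨γ (1 / 2), ⟨1 / 2, by norm_num, rfl⟩⟩ (fun c d hcd h => ?_) hu hv
      exact hm c d hcd ((meets_iff c d).1 h)
  rcases res with h | h
  · exact huv h
  · exact hn h

/-! ### Connectivity -/

/-- The list is the interior of a path from `a` to `b`. -/
noncomputable def chB (l : List (Fin 27)) : Fin 27 → Fin 27 → Bool :=
  @List.rec (Fin 27) (fun _ => Fin 27 → Fin 27 → Bool) (fun a b => ab a b)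
    (fun x _ ih a b => @Bool.rec (fun _ => Bool) false (ih x b) (ab a x)) l

theorem reach_chB {S : Finset (Fin 27)} : ∀ (l : List (Fin 27)) (a b : Fin 27), chB l a b = true →
    (∀ x ∈ l, x ∉ S) → ∀ (ha : a ∉ S) (hb : b ∉ S),
    (G.induce {v | v ∉ S}).Reachable ⟨a, ha⟩ ⟨b, hb⟩ := by
  intro l
  induction l with
  | nil =>
    intro a b h _ ha hb
    apply SimpleGraph.Adj.reachable
    exact h
  | cons x l ih =>
    intro a b h hl ha hb
    have h' : an (ab a x) (chB l x b) = true := h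
    rw [an_iff] at h'
    have hx : x ∉ S := hl x List.mem_cons_self
    have h1 : (G.induce {v | v ∉ S}).Adj ⟨a, ha⟩ ⟨x, hx⟩ := h'.1
    exact h1.reachable.trans (ih x b h'.2 (fun y hy => hl y (List.mem_cons_of_mem _ hy)) hx hb)

theorem avoid_list : ∀ (Ls : List (List (Fin 27))) (S : Finset (Fin 27)),
    Ls.Pairwise List.Disjoint → S.card < Ls.length → ∃ l ∈ Ls, ∀ x ∈ l, x ∉ S := by
  intro Ls
  induction Ls with
  | nil =>
    intro S _ h
    exact absurd h (Nat.not_lt_zero _)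
  | cons l Ls ih =>
    intro S hp hc
    rw [List.pairwise_cons] at hp
    by_cases h : ∀ x ∈ l, x ∉ S
    · exact ⟨l, List.mem_cons_self, h⟩
    · push Not at h
      obtain ⟨x, hx, hxS⟩ := h
      obtain ⟨l', hl', h'⟩ := ih (S.erase x) hp.2 (by
        rw [Finset.card_erase_of_mem hxS]
        rw [List.length_cons] at hc
        have : 0 < S.card := Finset.card_pos.2 ⟨x, hxS⟩
        omega)
      refine ⟨l', List.mem_cons_of_mem _ hl', fun y hy hyS => h' y hy ?_⟩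
      rw [Finset.mem_erase]
      refine ⟨?_, hyS⟩
      rintro rfl
      exact hp.1 l' hl' hx hy

/-- The two lists are disjoint. -/
noncomputable def dis (l l' : List (Fin 27)) : Bool := al (fun a => al (fun b => nt (eqb a b)) l') l

/-- The check of five paths. -/
noncomputable def okP (x : (Fin 27 × Fin 27) × List (List (Fin 27))) : Bool :=
  an (Nat.beq x.2.length 5) (an (al (fun l => chB l x.1.1 x.1.2) x.2) (al2 dis x.2))

/-- There are paths from `r` to all vertices. -/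
noncomputable def okR (r : Fin 27) (ct : List ((Fin 27 × Fin 27) × List (List (Fin 27)))) : Bool :=
  an (al okP ct) (al (fun w => orr (eqb w r) (ay (fun x => an (eqb x.1.1 r) (eqb x.1.2 w)) ct)) VL)

theorem okR_spec {r : Fin 27} {ct : List ((Fin 27 × Fin 27) × List (List (Fin 27)))}
    (h : okR r ct = true) (w : Fin 27) (hw : w ≠ r) : ∃ Ls : List (List (Fin 27)),
      Ls.length = 5 ∧ (∀ l ∈ Ls, chB l r w = true) ∧ Ls.Pairwise List.Disjoint := by
  unfold okR at h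
  rw [an_iff] at h
  have h1 := al_iff.1 h.2 w (mem_VL w)
  rw [orr_iff, eqb_iff, ay_iff] at h1
  obtain ⟨x, hx, h2⟩ := h1.resolve_left hw
  rw [an_iff, eqb_iff, eqb_iff] at h2
  have h3 := al_iff.1 h.1 x hx
  unfold okP at h3
  rw [an_iff, an_iff, Nat.beq_eq, al_iff, h2.1, h2.2] at h3
  refine ⟨x.2, h3.1, h3.2.1, (al2_pairwise h3.2.2).imp ?_⟩
  intro l l' hd a ha ha'
  have := al_iff.1 (al_iff.1 hd a ha) a ha'
  rw [neqb] at this
  exact this rfl

theorem cert_ok (r : Fin 27) (hr : r ∈ ([0, 1, 2, 3, 4] : List (Fin 27))) :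
    ∃ ct, okR r ct = true := by
  have k0 : okR 0 ct0 = true := by decide +kernel
  have k1 : okR 1 ct1 = true := by decide +kernel
  have k2 : okR 2 ct2 = true := by decide +kernel
  have k3 : okR 3 ct3 = true := by decide +kernel
  have k4 : okR 4 ct4 = true := by decide +kernel
  simp only [List.mem_cons, List.not_mem_nil, or_false] at hr
  rcases hr with rfl | rfl | rfl | rfl | rfl
  · exact ⟨_, k0⟩
  · exact ⟨_, k1⟩
  · exact ⟨_, k2⟩
  · exact ⟨_, k3⟩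
  · exact ⟨_, k4⟩

theorem conn5 (S : Finset (Fin 27)) (hS : S.card < 5) : (G.induce {v | v ∉ S}).Connected := by
  obtain ⟨l, hl, hr⟩ := avoid_list [[0], [1], [2], [3], [4]] S
    (List.nodup_flatten.1 (by decide)).2 hS
  have : ∃ r ∈ ([0, 1, 2, 3, 4] : List (Fin 27)), l = [r] := by
    have : ∀ l ∈ ([[0], [1], [2], [3], [4]] : List (List (Fin 27))),
        ∃ r ∈ ([0, 1, 2, 3, 4] : List (Fin 27)), l = [r] := by decide
    exact this l hl
  obtain ⟨r, hr', rfl⟩ := this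
  have hrS : r ∉ S := hr r List.mem_cons_self
  rw [SimpleGraph.connected_iff_exists_forall_reachable]
  refine ⟨⟨r, hrS⟩, ?_⟩
  rintro ⟨w, hw⟩
  by_cases hwr : w = r
  · subst hwr
    exact SimpleGraph.Reachable.refl _
  · obtain ⟨ct, hct⟩ := cert_ok r hr'
    obtain ⟨Ls, c1, c2, c3⟩ := okR_spec hct w hwr
    obtain ⟨l, hl, h⟩ := avoid_list Ls S c3 (by rw [c1]; exact hS)
    exact reach_chB l r w (c2 l hl) h hrS hw

theorem reach_closed {α : Type} {K : SimpleGraph α} {B : α → Prop}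
    (h : ∀ x y, K.Adj x y → B x → B y) {x y : α} (hr : K.Reachable x y) : B x → B y := by
  obtain ⟨w⟩ := hr
  induction w with
  | nil => exact id
  | cons hadj _ ih => exact fun hx => ih (h _ _ hadj hx)

/-- The list has the element. -/
noncomputable def mb (l : List (Fin 27)) (a : Fin 27) : Bool := ay (fun b => eqb a b) l

theorem mb_iff {l : List (Fin 27)} {a : Fin 27} : mb l a = true ↔ a ∈ l := by
  unfold mb
  rw [ay_iff]
  constructor
  · rintro ⟨b, hb, h⟩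
    rw [eqb_iff] at h
    rwa [h]
  · exact fun h => ⟨a, h, eqb_iff.2 rfl⟩

theorem not_conn : ¬ (G.induce {v | v ∉ ({2, 7, 9, 10, 11} : Finset (Fin 27))}).Connected := by
  intro h
  have key0 : al (fun x => al (fun y => orr (nt (ab x y)) (orr (mb [2, 7, 9, 10, 11] y)
      (mb [0, 1, 3, 4, 5, 6, 8] y))) VL) [0, 1, 3, 4, 5, 6, 8] = true := by decide +kernel
  have key : ∀ x y : Fin 27, ab x y = true → x ∈ ([0, 1, 3, 4, 5, 6, 8] : List (Fin 27)) →
      y ∉ ({2, 7, 9, 10, 11} : Finset (Fin 27)) →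
      y ∈ ([0, 1, 3, 4, 5, 6, 8] : List (Fin 27)) := by
    intro x y h1 h2 h3
    have h4 := al_iff.1 (al_iff.1 key0 x h2) y (mem_VL y)
    rw [orr_iff, orr_iff, mb_iff, mb_iff, nt_iff, h1] at h4
    rcases h4 with h4 | h4 | h4
    · exact absurd h4.symm Bool.false_ne_true
    · exfalso
      apply h3
      simpa using h4
    · exact h4
  have h1 := h.preconnected ⟨0, by decide⟩ ⟨12, by decide⟩
  have h2 := reach_closed (B := fun x => x.1 ∈ ([0, 1, 3, 4, 5, 6, 8] : List (Fin 27)))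
    (fun x y hxy hx => key x.1 y.1 hxy hx y.2) h1 (by decide)
  revert h2
  decide

theorem connectivity : ConnectivityEq G 5 :=
  ⟨by decide, conn5, {2, 7, 9, 10, 11}, by decide, not_conn⟩

/-! ### Numbers of crossings and of edges -/

theorem ex_pt (x : (Fin 27 × Fin 27) × (Fin 27 × Fin 27)) (hx : x ∈ CP) : ∃ q : Plane,
    q ∈ Seg pt x.1.1 x.1.2 ∧ q ∈ Seg pt x.2.1 x.2.2 ∧
      ∀ y, y ∈ Seg pt x.1.1 x.1.2 → y ∈ Seg pt x.2.1 x.2.2 → q = y := by
  obtain ⟨⟨q, h1, h2⟩, h3, -⟩ := crsB_spec (CP_ok x hx).1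
  exact ⟨q, openSegment_subset_segment _ _ _ h1, openSegment_subset_segment _ _ _ h2,
    fun y hy hy' => h3 _ _ (openSegment_subset_segment _ _ _ h1)
      (openSegment_subset_segment _ _ _ h2) hy hy'⟩

open Classical in
/-- The crossing point of a pair of crossing edges. -/
noncomputable def cpt (x : (Fin 27 × Fin 27) × (Fin 27 × Fin 27)) : Plane :=
  if h : x ∈ CP then (ex_pt x h).choose else 0

theorem cpt_spec {x : (Fin 27 × Fin 27) × (Fin 27 × Fin 27)} (hx : x ∈ CP) :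
    cpt x ∈ Seg pt x.1.1 x.1.2 ∧ cpt x ∈ Seg pt x.2.1 x.2.2 ∧
      ∀ y, y ∈ Seg pt x.1.1 x.1.2 → y ∈ Seg pt x.2.1 x.2.2 → cpt x = y := by
  unfold cpt
  rw [dif_pos hx]
  exact (ex_pt x hx).choose_spec

theorem cpt_inj : Set.InjOn cpt (CP.toFinset : Set _) := by
  intro x hx y hy h
  rw [Finset.mem_coe, List.mem_toFinset] at hx hy
  have key : al (fun x => al (fun y => orr (an (eqE x.1 y.1) (eqE x.2 y.2)) (orr (sp x.1 y.1)
      (orr (sp x.1 y.2) (orr (sp x.2 y.1) (sp x.2 y.2))))) CP) CP = true := by decide +kernel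
  have h1 := al_iff.1 (al_iff.1 key x hx) y hy
  rw [orr_iff, orr_iff, orr_iff, orr_iff, an_iff, eqE_iff, eqE_iff] at h1
  obtain ⟨a1, a2, -⟩ := cpt_spec hx
  obtain ⟨b1, b2, -⟩ := cpt_spec hy
  rw [← h] at b1 b2
  rcases h1 with k | k | k | k | k
  · exact Prod.ext k.1 k.2
  · exact (sepB_spec (sp_spec k) a1 b1).elim
  · exact (sepB_spec (sp_spec k) a1 b2).elim
  · exact (sepB_spec (sp_spec k) a2 b1).elim
  · exact (sepB_spec (sp_spec k) a2 b2).elim

theorem crossing_eq : crossingPoints G pt = cpt '' (CP.toFinset : Set _) := by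
  ext x
  constructor
  · rintro ⟨a, b, c, d, h1, h2, h3, hx1, hx2⟩
    obtain ⟨e, he, f, hf, e1, f1, e2, f2, hd, hcr⟩ := cross_norm h1 h2 h3
    rw [e2] at hx1
    rw [f2] at hx2
    rcases hcr with hcr | hcr
    · refine ⟨(e, f), ?_, (cpt_spec hcr).2.2 x hx1 hx2⟩
      rw [Finset.mem_coe, List.mem_toFinset]
      exact hcr
    · refine ⟨(f, e), ?_, (cpt_spec hcr).2.2 x hx2 hx1⟩
      rw [Finset.mem_coe, List.mem_toFinset]
      exact hcr
  · rintro ⟨z, hz, rfl⟩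
    rw [Finset.mem_coe, List.mem_toFinset] at hz
    obtain ⟨-, -, h3, -, h5, h6⟩ := CP_ok z hz
    obtain ⟨a1, a2, -⟩ := cpt_spec hz
    rw [dj_iff] at h3
    obtain ⟨⟨⟨d1, d2⟩, d3⟩, d4⟩ := h3
    exact ⟨_, _, _, _, adj_of h5, adj_of h6, ⟨d1, d2, d3, d4, cpt z, a1, a2⟩, a1, a2⟩

theorem CP_nodup : CP.Nodup := by
  have key : al2 (fun x y => nt (eqE x.1 y.1)) CP = true := by decide +kernel
  refine (al2_pairwise key).imp ?_
  intro x y h e
  rw [nt_iff, ← Bool.not_eq_true, eqE_iff] at h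
  exact h (by rw [e])

theorem EL_nodup : EL.Nodup := by
  have key : al2 (fun x y => nt (eqE x y)) EL = true := by decide +kernel
  refine (al2_pairwise key).imp ?_
  intro x y h e
  rw [nt_iff, ← Bool.not_eq_true, eqE_iff] at h
  exact h e

theorem crossing_card : (crossingPoints G pt).ncard = 15 := by
  rw [crossing_eq, cpt_inj.ncard_image, Set.ncard_coe_finset,
    List.toFinset_card_of_nodup CP_nodup]
  rfl

theorem edge_card : G.edgeSet.ncard = 90 := by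
  have h1 : G.edgeSet = ((EL.map fun e => s(e.1, e.2)).toFinset : Set (Sym2 (Fin 27))) := by
    ext x
    induction x using Sym2.ind with
    | _ a b =>
      rw [SimpleGraph.mem_edgeSet, Finset.mem_coe, List.mem_toFinset, List.mem_map]
      constructor
      · intro h
        obtain ⟨e, he, e1, -, -⟩ := norm h
        exact ⟨e, he, e1.symm⟩
      · rintro ⟨e, he, e1⟩
        have := adj_of he
        rw [← SimpleGraph.mem_edgeSet] at this ⊢
        rwa [← e1]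
  rw [h1, Set.ncard_coe_finset, List.toFinset_card_of_nodup]
  · rfl
  · refine List.Nodup.map_on ?_ EL_nodup
    intro e he f hf h
    exact edge_unique he hf h

/-- There is a maximal 1-plane graph (drawn with straight-line edges) with `n = 27` vertices and
connectivity 5 that has exactly `3 (n - 2) / 5 = 15` crossing points and exactly
`18 (n - 2) / 5 = 90` edges. -/
theorem result : ∃ (G : SimpleGraph (Fin 27)) (p : Fin 27 → Plane),
    MaximalOnePlane G p ∧ ConnectivityEq G 5 ∧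
    5 * (crossingPoints G p).ncard = 3 * (27 - 2) ∧ 5 * G.edgeSet.ncard = 18 * (27 - 2) :=
  ⟨G, pt, ⟨onePlane, maximal⟩, connectivity, by rw [crossing_card], by rw [edge_card]⟩

end Pool.Agent.Results.MP_c4df14_co.KappaFive
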